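import Pool.Agent.Lib.MP_1a91b9_ntQ.D.Lim2

/-!
# MP_1a91b9_nt (quartic twists), part Q: the constant
-/

set_option autoImplicit false

namespace Pool.Agent.Lib.MP_1a91b9_ntQ

open Finset Filter Topology

noncomputable section

/-- Euler's identity for the constant. -/
theorem cinf2_form : ∏' i : ℕ, (1 + 1 / (2 : ℝ) ^ (i + 1))⁻¹ = Da.cinf2 := by
  have hs : Summable fun i : ℕ => (1 / 2 : ℝ) ^ (i + 1) := by
    have h1 : Summable fun i : ℕ => (1 / 2 : ℝ) * (1 / 2) ^ i :=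
      (summable_geometric_of_lt_one (by norm_num) (by norm_num)).mul_left _
    exact h1.congr fun i => (pow_succ' _ _).symm
  have hsA : Multipliable fun i : ℕ => (1 + (1 / 2 : ℝ) ^ (i + 1)) :=
    Real.multipliable_one_add_of_summable hs
  have h3 : (∏' i : ℕ, (1 + (1 / 2 : ℝ) ^ (i + 1))) * Da.fs2 (-1 / 2) = 1 :=
    tendsto_nhds_unique (hsA.hasProd.tendsto_prod_nat.mul_const _) Da.tendsto_prod2
  have h0 : (∏' i : ℕ, (1 + (1 / 2 : ℝ) ^ (i + 1))) ≠ 0 := left_ne_zero_of_mul_eq_one h3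
  have h4 := (hsA.hasProd.inv₀ h0).tprod_eq
  have h5 : ∀ i : ℕ, (1 + 1 / (2 : ℝ) ^ (i + 1))⁻¹ = (1 + (1 / 2 : ℝ) ^ (i + 1))⁻¹ := fun i => by
    rw [one_div_pow]
  rw [tprod_congr h5, h4, Da.cinf2_eq]
  exact inv_eq_of_mul_eq_one_right h3

theorem cinf2_gt : (0.419 : ℝ) < ∏' i : ℕ, (1 + 1 / (2 : ℝ) ^ (i + 1))⁻¹ := by
  rw [cinf2_form, Da.cinf2_eq]
  have h1 := Da.fs2_iter 14
  have h4 : |(-1 / 2 * (1 / 2) ^ 14 : ℝ)| = 1 / 2 * (1 / 2) ^ 14 := by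
    rw [abs_of_neg (by norm_num)]
    norm_num
  have h2 := Da.fs2_near (z := -1 / 2 * (1 / 2) ^ 14) (by rw [h4]; norm_num)
  rw [← h1] at h2
  have h3 := (abs_le.1 h2).1
  rw [h4] at h3
  generalize Da.fs2 (-1 / 2) = x at h3 ⊢
  simp only [prod_range_succ, prod_range_zero] at h3
  norm_num at h3
  linarith

end

end Pool.Agent.Lib.MP_1a91b9_ntQ
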