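import Pool.Agent.Lib.MP_1a91b9_ntQ.Q.Const4
import Pool.Agent.Lib.MP_1a91b9_ntQ.C.Pts5
import Pool.Agent.Lib.MP_1a91b9_ntQ.A.IndC
import Pool.Agent.Lib.MP_1a91b9_ntQ.A.SerC

/-!
# MP_1a91b9_nt (the family `y² = x³ - δ² x` over `ℚ(i)`), part Q: Q1 for more than 41 percent of the
squarefree `δ`
-/

set_option autoImplicit false

namespace Pool.Agent.Lib.MP_1a91b9_ntQ

open NumberField IsDedekindDomain Finset
open Den4 (ph)

noncomputable section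

/-- The L-series of `y² = x³ - δ² x` has an entire continuation which is not zero at `1`. -/
def LQ5 (δ : 𝓞 K4) : Prop :=
  ∃ g : ℂ → ℂ, Differentiable ℂ g ∧
    (∀ s : ℂ, 3 / 2 < s.re → g s = (WD4 (δ ^ 2)).LSeries s) ∧ g 1 ≠ 0

/-- The property of Q1, and: `δ` is not the area of a right triangle with sides in `ℚ(i)`. -/
def PrQ5 (δ : 𝓞 K4) : Prop :=
  (∀ W : WeierstrassCurve K4, W = ⟨0, 0, 0, -(δ : K4) ^ 2, 0⟩ →
    (∃ g : ℂ → ℂ, Differentiable ℂ g ∧ (∀ s : ℂ, 3 / 2 < s.re → g s = W.LSeries s) ∧ g 1 ≠ 0) ∧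
      Finite W.toAffine.Point ∧ Nat.card W.toAffine.Point = 4) ∧
    ∀ a b c : K4, a ^ 2 + b ^ 2 = c ^ 2 → a * b = 2 * (δ : K4) → c = 0

theorem WD4_sq (δ : 𝓞 K4) : WD4 (δ ^ 2) = ⟨0, 0, 0, -(δ : K4) ^ 2, 0⟩ := by
  unfold WD4
  push_cast
  rfl

/-- `2` is not a square in `ℚ(i)` -/
theorem two_not_sq (z : K4) : z ^ 2 ≠ 2 := by
  intro h
  have h2 : IsIntegral ℤ z := by
    refine IsIntegral.of_pow (n := 2) (by norm_num) ?_
    rw [h]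
    exact RingOfIntegers.isIntegral_coe (2 : 𝓞 K4)
  obtain ⟨T, hT⟩ : ∃ T : 𝓞 K4, (T : K4) = z := ⟨⟨z, h2⟩, rfl⟩
  have h3 : T ^ 2 = 2 := by
    apply FaithfulSMul.algebraMap_injective (𝓞 K4) K4
    rw [map_pow, map_ofNat]
    exact (congrArg (· ^ 2) hT).trans h
  obtain ⟨m, n, hmn⟩ := exists_coords4 T
  rw [hmn] at h3
  have h4 : ((m ^ 2 - n ^ 2 : ℤ) : 𝓞 K4) + ((2 * m * n : ℤ) : 𝓞 K4) * iO =
      ((2 : ℤ) : 𝓞 K4) + ((0 : ℤ) : 𝓞 K4) * iO := by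
    push_cast
    linear_combination h3 - (n : 𝓞 K4) ^ 2 * iO_sq
  obtain ⟨h5, h6⟩ := coords_inj h4
  have h7 : m = 0 ∨ n = 0 := by
    rcases mul_eq_zero.1 h6 with h | h
    · exact Or.inl ((mul_eq_zero.1 h).resolve_left two_ne_zero)
    · exact Or.inr h
  rcases h7 with rfl | rfl
  · nlinarith [sq_nonneg n]
  · have h8 : m < 2 := by nlinarith
    have h9 : -2 < m := by nlinarith
    interval_cases m <;> simp at h5

/-- from the points to the triangles -/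
theorem tri_of {δ : K4} (hδ : δ ≠ 0) (h : ∀ x y : K4, y ^ 2 = x ^ 3 - δ ^ 2 * x → y = 0)
    (a b c : K4) (h1 : a ^ 2 + b ^ 2 = c ^ 2) (h2 : a * b = 2 * δ) : c = 0 := by
  by_contra hc
  have h3 := h ((c / 2) ^ 2) (c * (a ^ 2 - b ^ 2) / 8) (by
    have e1 : δ = a * b / 2 := by
      rw [h2]
      ring
    rw [e1]
    linear_combination (c ^ 2 * (a ^ 2 + b ^ 2 + c ^ 2) / 64) * h1)
  have h4 : a ^ 2 = b ^ 2 := by
    have h5 : c * (a ^ 2 - b ^ 2) = 0 := by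
      have h6 : (8 : K4) ≠ 0 := by norm_num
      exact (div_eq_zero_iff.1 h3).resolve_right h6
    exact sub_eq_zero.1 ((mul_eq_zero.1 h5).resolve_left hc)
  by_cases hb : b = 0
  · apply hδ
    have h5 : (2 : K4) * δ = 0 := by rw [← h2, hb, mul_zero]
    exact (mul_eq_zero.1 h5).resolve_left two_ne_zero
  · refine two_not_sq (c / b) ?_
    rw [div_pow, ← h1, h4]
    field_simp
    ring

theorem PrQ5.of {δ : 𝓞 K4} (hδ : δ ≠ 0) (h1 : LQ5 δ)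
    (h2 : ∀ W : WeierstrassCurve K4, W = C.cq ((δ : K4) ^ 2) →
      Finite W.toAffine.Point ∧ Nat.card W.toAffine.Point = 4 ∧
        ∀ x y : K4, y ^ 2 = x ^ 3 - (δ : K4) ^ 2 * x → y = 0) : PrQ5 δ := by
  obtain ⟨g, g1, g2, g3⟩ := h1
  rw [WD4_sq] at g2
  refine ⟨?_, tri_of (by exact_mod_cast hδ) (h2 _ rfl).2.2⟩
  rintro W rfl
  exact ⟨⟨g, g1, g2, g3⟩, (h2 _ rfl).1, (h2 _ rfl).2.1⟩

namespace Q5

theorem two_lam : (2 : 𝓞 K4) = -iO * lam ^ 2 := by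
  rw [lam_sq]
  linear_combination 2 * iO_sq

theorem two_pow_dvd (n : ℕ) : (2 : 𝓞 K4) ^ n ∣ lam ^ (2 * n + 5) := by
  have e : (2 : 𝓞 K4) ^ n * (iO ^ n * lam ^ 5) = lam ^ (2 * n + 5) := by
    have e1 : (2 : 𝓞 K4) * iO = lam ^ 2 := lam_sq.symm
    rw [← mul_assoc, ← mul_pow, e1, ← pow_mul, ← pow_add]
  exact Dvd.intro _ e

theorem two_dvd_lam (x : 𝓞 K4) : (2 : 𝓞 K4) ∣ x ↔ lam ^ 2 ∣ x := by
  constructor
  · intro h
    refine Dvd.dvd.trans ⟨-iO, ?_⟩ h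
    rw [two_lam]
    ring
  · intro h
    refine Dvd.dvd.trans ⟨iO, ?_⟩ h
    rw [lam_sq]

/-- a representative of the class which is not divisible by `lam ^ 2` -/
theorem exists_rep {M u : 𝓞 K4} (hu : ¬ ((2 : 𝓞 K4) ∣ M ∧ (2 : 𝓞 K4) ∣ u)) :
    ∃ u' : 𝓞 K4, ¬ lam ^ 2 ∣ u' ∧ M ∣ u' - u := by
  by_cases h : (2 : 𝓞 K4) ∣ u
  · refine ⟨u + M, fun h1 => hu ⟨?_, h⟩, ⟨1, by ring⟩⟩
    rw [two_dvd_lam] at h ⊢
    exact (dvd_add_right h).1 h1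
  · exact ⟨u, fun h1 => h ((two_dvd_lam u).2 h1), by rw [sub_self]; exact dvd_zero _⟩

theorem dvd_sub_iff {M u u' : 𝓞 K4} (h : M ∣ u' - u) (x : 𝓞 K4) : M ∣ x - u' ↔ M ∣ x - u := by
  constructor
  · intro h1
    have e : x - u = (x - u') + (u' - u) := by ring
    rw [e]
    exact dvd_add h1 h
  · intro h1
    have e : x - u' = (x - u) - (u' - u) := by ring
    rw [e]
    exact dvd_sub h1 h

/-- **The density in a residue class modulo a divisor of a power of `2`.** -/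
theorem density {n : ℕ} {M u : 𝓞 K4} (hM : M ∣ 2 ^ n) (hu : ¬ ((2 : 𝓞 K4) ∣ M ∧ (2 : 𝓞 K4) ∣ u))
    (Pr : 𝓞 K4 → Prop)
    (hPr : ∀ (k : ZMod 4) (j : Fin 2) (S : Finset Pg), Gd5 k j S → Pr (ph k j (DDq S)))
    (ε : ℝ) (hε : 0 < ε) :
    ∀ᶠ X : ℝ in Filter.atTop,
      (∏' i : ℕ, (1 + 1 / (2 : ℝ) ^ (i + 1))⁻¹) - ε ≤
      (Nat.card {x : 𝓞 K4 // Squarefree x ∧ M ∣ x - u ∧ |Algebra.norm ℤ x| ≤ X ∧ Pr x} : ℝ) /
        (Nat.card {x : 𝓞 K4 // Squarefree x ∧ M ∣ x - u ∧ |Algebra.norm ℤ x| ≤ X} : ℝ) := by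
  obtain ⟨u', hu', hMu⟩ := exists_rep hu
  rw [cinf2_form]
  have key := density_Gd5_cls (2 * n) (hM.trans (two_pow_dvd n)) hu' (Da.cinf2 - ε) (by linarith) Pr
    (fun k j S _ h2 => hPr k j S h2)
  simp only [dvd_sub_iff hMu] at key
  exact key

end Q5

theorem jj_zero : jj 0 = 0 := rfl

theorem jj_one : jj 1 = 1 := rfl

theorem dC_ph (k : ZMod 4) (j : ZMod 2) (S : Finset Pg) : dC k j S = ph k j (DDq S) := rfl

/-- **The L-values of the good `δ`.** -/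
theorem ls5 {k : ZMod 4} {j : Fin 2} {S : Finset Pg} (hG : Gd5 k j S) :
    LQ5 (ph k j (DDq S)) := by
  obtain ⟨g1, g2, g3⟩ := hG
  have h2 : ∀ x : ZMod 2, x = 0 ∨ x = 1 := by decide
  have hj : ∀ j : Fin 2, j = 0 ∨ j = 1 := by decide
  rcases hj j with rfl | rfl
  · have key : LC (md k) 0 S 1 ≠ 0 := by
      rcases h2 (md k) with hk | hk
      · rw [hk]
        rcases h2 (∑ q ∈ S, aa q.1) with hA | hA
        · exact LC_ne_III (g3 hk rfl hA).1 hA (g3 hk rfl hA).2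
        · exact LC_ne_II hA (g2 hk rfl hA).2
      · exact LC_ne_I (Or.inl hk) (g1 (Or.inl hk))
    exact serC_ne key
  · exact serC_ne (j := 1) (LC_ne_I (Or.inr rfl) (g1 (Or.inr rfl)))

/-- **Q1 for the congruent number family over `ℚ(i)`.** -/
theorem main5 {n : ℕ} {m u : 𝓞 K4} (hm : m ∣ 2 ^ n) (hu : ¬ ((2 : 𝓞 K4) ∣ m ∧ (2 : 𝓞 K4) ∣ u))
    (ε : ℝ) (hε : 0 < ε) :
    ∀ᶠ X : ℝ in Filter.atTop,
      (∏' i : ℕ, (1 + 1 / (2 : ℝ) ^ (i + 1))⁻¹) - ε ≤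
      (Nat.card {x : 𝓞 K4 // Squarefree x ∧ m ∣ x - u ∧ |Algebra.norm ℤ x| ≤ X ∧ PrQ5 x} : ℝ) /
        (Nat.card {x : 𝓞 K4 // Squarefree x ∧ m ∣ x - u ∧ |Algebra.norm ℤ x| ≤ X} : ℝ) :=
  Q5.density hm hu PrQ5 (fun k j S hG => PrQ5.of
    (Squarefree.ne_zero (C.ph_squarefree k j S)) (ls5 hG)
    (fun W hW => by
      have h := C.pts5_all k j S hG rfl hW
      exact ⟨h.1, h.2.1, h.2.2.2⟩)) ε hε

end

end Pool.Agent.Lib.MP_1a91b9_ntQ
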