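import Pool.Agent.Lib.MP_1a91b9_ntQ.Q.T5
import Pool.Agent.Lib.MP_1a91b9_ntQ.C.ConvG5
import Pool.Agent.Lib.MP_1a91b9_ntQ.C.Prim5

/-!
# MP_1a91b9_nt (the family `y² = x³ - δ² x` over `ℚ(i)`), part Q, file T5M: the conjecture of Birch and
Swinnerton-Dyer modulo `2` for every squarefree `δ`, with the distribution of the normalised value:
assembly
-/

set_option autoImplicit false

namespace Pool.Agent.Lib.MP_1a91b9_ntQ

open NumberField IsDedekindDomain Finset WeierstrassCurve Filter Topology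
open Den4 (ph)
open Pool.Agent.Lib.MP_1a91b9_ntS (BSDMod)
open Pool.Agent.Lib.MP_1a91b9_ntT.S9 (tam period)
open Pool.Agent.Lib.MP_1a91b9_ntT3.S9 (ShaP)

noncomputable section

/-- `δ² = 1` -/
theorem ph_sq_one {k : ZMod 4} {j : Fin 2} {S : Finset Pg} (h : md k = 0 ∧ j = 0 ∧ S = ∅) :
    (ph k j (DDq S)) ^ 2 = 1 := by
  obtain ⟨hk, rfl, rfl⟩ := h
  have e := C.dC_zero_sq k ∅
  rw [C.iO_two_mul hk, DDq_empty, one_pow, mul_one] at e
  exact e

theorem ph_ne {k : ZMod 4} {j : Fin 2} {S : Finset Pg} (h : ¬ (md k = 0 ∧ j = 0 ∧ S = ∅)) :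
    (ph k j (DDq S)) ^ 2 ≠ 1 := by
  intro h1
  have hu : IsUnit (dC k j S) := IsUnit.of_mul_eq_one (dC k j S) (by rw [← sq]; exact h1)
  have hS : S = ∅ := by
    rw [← not_nonempty_iff_eq_empty]
    rintro ⟨q, hq⟩
    exact q.prime.not_isUnit (isUnit_of_dvd_unit (dC_dvd.2 hq) hu)
  have hj : ∀ j : Fin 2, j = 0 ∨ j = 1 := by decide
  rcases hj j with rfl | rfl
  · subst hS
    have hk : md k = 1 := (md_01 k).resolve_left fun hk => h ⟨hk, rfl, rfl⟩
    have e := C.dC_zero_sq k ∅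
    rw [C.iO_two_mul' hk, DDq_empty, one_pow, mul_one] at e
    have e2 : (1 : 𝓞 K4) = -1 := h1.symm.trans e
    have e3 : (1 : K4) = -1 := by exact_mod_cast congrArg (fun y : 𝓞 K4 => (y : K4)) e2
    norm_num at e3
  · have h3 : lam ∣ dC k 1 S := by
      have : (1 : ZMod 2).val = 1 := rfl
      rw [dC, this, pow_one]
      exact (Dvd.intro_left _ rfl).mul_right _
    exact lam_prime.not_isUnit (isUnit_of_dvd_unit h3 hu)

/-- **The points and `Sha`, in terms of the matrices.** -/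
theorem pts_iff (k : ZMod 4) (j : Fin 2) (S : Finset Pg) {W : WeierstrassCurve K4}
    (hW : W = C.cq ((ph k j (DDq S) : K4) ^ 2)) :
    Gdx k j S ↔ Finite W.toAffine.Point ∧ Nat.card (ShaP 2 W) = 1 := by
  have hj : ∀ j : Fin 2, j = 0 ∨ j = 1 := by decide
  by_cases hne : md k = 0 ∧ j = 0 ∧ S = ∅
  · have e : ((ph k j (DDq S) : K4)) ^ 2 = 1 := by
      have e1 := congrArg (fun y : 𝓞 K4 => (y : K4)) (ph_sq_one hne)
      simpa using e1
    rw [e] at hW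
    have h1 := C.one5 hW
    exact ⟨fun _ => ⟨h1.1, h1.2.2⟩, fun _ => Or.inr hne.2.2⟩
  · constructor
    · intro h
      have hG : Gd5 k j S := by
        rcases h with h | h
        · exact h
        · subst h
          refine gd5_empty ?_
          by_contra h1
          push Not at h1
          exact hne ⟨(md_01 k).resolve_right h1.1, (hj j).resolve_right h1.2, rfl⟩
      have h2 := C.pts5_all k j S hG rfl hW
      exact ⟨h2.1, h2.2.2.1⟩
    · rintro ⟨h1, h2⟩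
      exact Or.inl (C.gd5_of_sha k j S hne rfl hW h1 h2)

theorem bsd5 (k : ZMod 4) (j : Fin 2) (S : Finset Pg) :
    ∃ q : ℚ, BSDMod 2 (WD4 (ph k j (DDq S) ^ 2)) q := by
  have hW : WD4 (ph k j (DDq S) ^ 2) = C.cq ((ph k j (DDq S) : K4) ^ 2) := WD4_sq _
  by_cases hne : md k = 0 ∧ j = 0 ∧ S = ∅
  · have hi := pts_iff k j S hW
    have e : ((ph k j (DDq S) : K4)) ^ 2 = 1 := by
      have e1 := congrArg (fun y : 𝓞 K4 => (y : K4)) (ph_sq_one hne)
      simpa using e1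
    have hc := (C.one5 (hW.trans (by rw [e]))).2.1
    obtain ⟨hk, rfl, rfl⟩ := hne
    obtain ⟨g, h1, h2, h3⟩ := C.form5_one hk
    refine ⟨1, ⟨g, h1, h2, ?_⟩, by norm_num, ?_⟩
    · refine h3.trans ?_
      rw [hc]
      norm_num
      rfl
    · exact ⟨fun _ => hi.1 (Or.inr rfl), fun _ => by norm_num⟩
  · obtain ⟨g, q, h1, h2, h3, h4, h5⟩ := form5_all k j S hne
    have hsq := C.ph_squarefree k j S
    have hc := C.card_prim5 hsq (fun h => ph_ne hne (by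
        have h0 : ph k j (DDq S) = 1 := h
        rw [h0, one_pow])) (fun h => ph_ne hne (by
        have h0 : ph k j (DDq S) = -1 := h
        rw [h0, neg_one_sq])) hW
    refine ⟨q, ⟨g, h1, h2, ?_⟩, h4, ?_⟩
    · rw [h3, hc]
      norm_num
    · refine h5.trans ?_
      rw [← pts_iff k j S hW]
      exact ⟨Or.inl, fun h => by
        rcases h with h | h
        · exact h
        · subst h
          refine gd5_empty ?_
          have hj : ∀ j : Fin 2, j = 0 ∨ j = 1 := by decide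
          by_contra h1
          push Not at h1
          exact hne ⟨(md_01 k).resolve_right h1.1, (hj j).resolve_right h1.2, rfl⟩⟩

/-- **The conjecture modulo `2`, every squarefree `δ`.** -/
theorem bsd5_all {δ : 𝓞 K4} (hs : Squarefree δ) :
    ∃ q : ℚ, BSDMod 2 (⟨0, 0, 0, -(δ : K4) ^ 2, 0⟩ : WeierstrassCurve K4) q := by
  obtain ⟨k, j, S, rfl⟩ := exists_dC hs
  rw [← WD4_sq]
  exact bsd5 k j S

theorem exists_val5 (δ : 𝓞 K4) : ∃ q : ℚ, Squarefree δ →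
    BSDMod 2 (⟨0, 0, 0, -(δ : K4) ^ 2, 0⟩ : WeierstrassCurve K4) q := by
  by_cases h : Squarefree δ
  · obtain ⟨q, hq⟩ := bsd5_all h
    exact ⟨q, fun _ => hq⟩
  · exact ⟨0, fun h1 => absurd h1 h⟩

/-- The normalised value of the L-series. -/
def qv5 (δ : 𝓞 K4) : ℚ := (exists_val5 δ).choose

theorem qv5_spec {δ : 𝓞 K4} (h : Squarefree δ) :
    BSDMod 2 (⟨0, 0, 0, -(δ : K4) ^ 2, 0⟩ : WeierstrassCurve K4) (qv5 δ) :=
  (exists_val5 δ).choose_spec h

theorem qv5_iff (k : ZMod 4) (j : Fin 2) (S : Finset Pg) :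
    ¬ (2 : ℤ) ∣ (qv5 (ph k j (DDq S))).num ↔ Gdx k j S :=
  (qv5_spec (C.ph_squarefree k j S)).2.2.trans (pts_iff k j S rfl).symm

theorem main_q5T : ∃ q : 𝓞 (CyclotomicField 4 ℚ) → ℚ,
    (∀ δ : 𝓞 (CyclotomicField 4 ℚ), Squarefree δ → ∀ W : WeierstrassCurve (CyclotomicField 4 ℚ),
      W = ⟨0, 0, 0, -(δ : CyclotomicField 4 ℚ) ^ 2, 0⟩ → BSDMod 2 W (q δ)) ∧
    ∀ (n : ℕ) (m u : 𝓞 (CyclotomicField 4 ℚ)), m ∣ 2 ^ n → ¬ (2 ∣ m ∧ 2 ∣ u) →
      Filter.Tendsto (fun X : ℝ =>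
        (Nat.card {δ : 𝓞 (CyclotomicField 4 ℚ) // Squarefree δ ∧ m ∣ δ - u ∧
          |Algebra.norm ℤ δ| ≤ X ∧ ¬ 2 ∣ (q δ).num} : ℝ) /
        (Nat.card {δ : 𝓞 (CyclotomicField 4 ℚ) // Squarefree δ ∧ m ∣ δ - u ∧
          |Algebra.norm ℤ δ| ≤ X} : ℝ)) Filter.atTop
        (nhds (∏' i : ℕ, (1 + 1 / (2 : ℝ) ^ (i + 1))⁻¹)) := by
  refine ⟨qv5, fun δ hs W hW => ?_, fun n m u hm hu => ?_⟩
  · subst hW
    exact qv5_spec hs
  · exact Q5.limit hm hu (fun δ => ¬ (2 : ℤ) ∣ (qv5 δ).num) qv5_iff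

end

end Pool.Agent.Lib.MP_1a91b9_ntQ
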