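import Pool.Agent.Lib.MP_1a91b9_ntQ.Q.Dens4

/-!
# MP_1a91b9_nt (quartic twists), part Q: Q1 for the quartic twists, from the L-values
-/

set_option autoImplicit false

namespace Pool.Agent.Lib.MP_1a91b9_ntQ

open NumberField IsDedekindDomain Finset
open Pool.Agent.Lib.MP_1a91b9_ntH (PS nm Sx mem_Sx)
open Den4 (ph)

noncomputable section

/-! ### the odd classes different from `± 1` modulo `4` -/

/-- `-1` in place of `1` -/
theorem ph_two (S : Finset Pg) : ph 2 0 (DDq S) = -DDq S := by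
  unfold ph
  have e : (2 : ZMod 4).val = 2 := rfl
  have e0 : ((0 : Fin 2)).val = 0 := rfl
  rw [e, e0, pow_zero, iO_sq]
  ring

theorem ph_zero (S : Finset Pg) : ph 0 0 (DDq S) = DDq S := by
  unfold ph
  have e : (0 : ZMod 4).val = 0 := rfl
  have e0 : ((0 : Fin 2)).val = 0 := rfl
  rw [e, e0, pow_zero, pow_zero, one_mul, one_mul]

theorem four_dvd {S : Finset Pg} (hA : ∑ q ∈ S, aa q.1 = 0) : (4 : 𝓞 K4) ∣ DDq S - 1 := by
  obtain ⟨c, d, h, -, -⟩ := C.form4 (DDq_in4 S) (by rw [aa_DDq]; exact hA)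
  exact ⟨(c : 𝓞 K4) + (d : 𝓞 K4) * iO, by rw [h]; ring⟩

/-- the good `D` in the odd classes different from `± 1` modulo `4` -/
theorem prQ_odd (H3 : Ls3) {u : 𝓞 K4} (h0 : ¬ lam ∣ u) (h1 : ¬ (4 : 𝓞 K4) ∣ u - 1)
    (h2 : ¬ (4 : 𝓞 K4) ∣ u + 1) {k : ZMod 4} {j : Fin 2} {S : Finset Pg}
    (h : (4 : 𝓞 K4) ∣ ph k j (DDq S) - u) (hG : Gd4 k j S) (hE : ¬ Exc (ph k j (DDq S))) :
    PrQ (ph k j (DDq S)) := by
  refine PrQ.of ?_ (hG.pts hE)
  rcases f2_cases' j with rfl | rfl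
  swap
  · exfalso
    apply h0
    have e1 : lam ∣ ph k 1 (DDq S) := by
      unfold ph
      have e : ((1 : Fin 2)).val = 1 := rfl
      rw [e, pow_one]
      exact Dvd.intro_left _ rfl |>.mul_right _
    have e2 : lam ∣ (4 : 𝓞 K4) := ⟨-lam ^ 3, by linear_combination lam_four⟩
    have e3 : u = ph k 1 (DDq S) - (ph k 1 (DDq S) - u) := by ring
    rw [e3]
    exact dvd_sub e1 (e2.trans h)
  obtain ⟨g1, g2, g3, g4, g5, g6⟩ := hG
  rcases md_cases' k with hk | hk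
  · exact ls_I hk (g2 rfl hk)
  · rcases z2_cases' (∑ q ∈ S, aa q.1) with hA | hA
    · exfalso
      have h5 := four_dvd hA
      rcases mk_cases' hk with rfl | rfl
      · apply h1
        rw [ph_zero] at h
        have e : u - 1 = (DDq S - 1) - (DDq S - u) := by ring
        rw [e]
        exact dvd_sub h5 h
      · apply h2
        rw [ph_two] at h
        have e : u + 1 = -(DDq S - 1) - (-DDq S - u) := by ring
        rw [e]
        exact dvd_sub ((dvd_neg).2 h5) h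
    · rcases mk_cases' hk with rfl | rfl
      · exact ls_II hA (g3 rfl hk hA)
      · exact H3 S hA (g3 rfl hk hA)

/-- a square root of `-1` -/
theorem i_eq {i : 𝓞 K4} (hi : i ^ 2 = -1) : i = iO ∨ i = -iO := by
  have h1 : (i - iO) * (i + iO) = 0 := by linear_combination hi - iO_sq
  rcases mul_eq_zero.1 h1 with h | h
  · exact Or.inl (sub_eq_zero.1 h)
  · exact Or.inr (eq_neg_of_add_eq_zero_left h)

theorem one_add_i {i : 𝓞 K4} (hi : i ^ 2 = -1) {x : 𝓞 K4} (h : lam ∣ x) : 1 + i ∣ x := by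
  refine Dvd.dvd.trans ?_ h
  rcases i_eq hi with rfl | rfl
  · exact ⟨1, by rw [mul_one]; rfl⟩
  · refine ⟨iO, ?_⟩
    show 1 + iO = (1 + -iO) * iO
    linear_combination iO_sq

/-- **Q1 for the classes of odd `u` different from `± 1` modulo `4`.** -/
theorem main_odd (H3 : Ls3) {i m u : 𝓞 K4} (hi : i ^ 2 = -1) (h4 : 4 ∣ m) (hm : m ∣ 16)
    (h0 : ¬ 1 + i ∣ u) (h1 : ¬ 4 ∣ u - 1) (h2 : ¬ 4 ∣ u + 1) (ε : ℝ) (hε : 0 < ε) :
    ∀ᶠ X : ℝ in Filter.atTop,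
      (∏' i : ℕ, (1 + 1 / (2 : ℝ) ^ (i + 1))⁻¹) - ε ≤
      (Nat.card {x : 𝓞 K4 // Squarefree x ∧ m ∣ x - u ∧ |Algebra.norm ℤ x| ≤ X ∧ PrQ x} : ℝ) /
        (Nat.card {x : 𝓞 K4 // Squarefree x ∧ m ∣ x - u ∧ |Algebra.norm ℤ x| ≤ X} : ℝ) := by
  have h0' : ¬ lam ∣ u := fun h => h0 (one_add_i hi h)
  have h2u : ¬ (2 : 𝓞 K4) ∣ u := fun h => h0' ((dvd_pow_self lam (by norm_num)).trans
    ((two_dvd_lam u).1 h))
  exact density_Q hm (fun h => h2u h.2) PrQ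
    (fun k j S h hG hE => prQ_odd H3 h0' h1 h2 (h4.trans h) hG hE) ε hε

/-! ### all classes -/

/-- **The L-values of all the good `D`.** -/
theorem ls_all (HE : LsE) (H3 : Ls3) (HX1 : LsX1) (HX2 : LsX2) (HX3 : LsX3) {k : ZMod 4} {j : Fin 2}
    {S : Finset Pg} (hG : Gd4 k j S) : LQ (ph k j (DDq S)) := by
  obtain ⟨g1, g2, g3, g4, g5, g6⟩ := hG
  rcases f2_cases' j with rfl | rfl
  · rcases md_cases' k with hk | hk
    · exact ls_I hk (g2 rfl hk)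
    · rcases z2_cases' (∑ q ∈ S, aa q.1) with hA | hA
      · rcases mk_cases' hk with rfl | rfl
        · rcases z2_cases' (hf4 (∑ q ∈ S, nn q.1) + ∑ q ∈ S, bb q.1) with hc | hc
          · exact HX3 S hA hc (g6 rfl rfl hA hc)
          · exact HX2 S hA hc (g5 rfl rfl hA hc)
        · exact HX1 S hA (g4 rfl rfl hA)
      · rcases mk_cases' hk with rfl | rfl
        · exact ls_II hA (g3 rfl hk hA)
        · exact H3 S hA (g3 rfl hk hA)
  · exact HE k S (g1 rfl)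

/-- **Q1 for all the squarefree quartic twists**, from the L-values. -/
theorem main_all (HE : LsE) (H3 : Ls3) (HX1 : LsX1) (HX2 : LsX2) (HX3 : LsX3) {m u : 𝓞 K4}
    (hm : m ∣ 16) (hu : ¬ ((2 : 𝓞 K4) ∣ m ∧ (2 : 𝓞 K4) ∣ u)) (ε : ℝ) (hε : 0 < ε) :
    ∀ᶠ X : ℝ in Filter.atTop,
      (∏' i : ℕ, (1 + 1 / (2 : ℝ) ^ (i + 1))⁻¹) - ε ≤
      (Nat.card {x : 𝓞 K4 // Squarefree x ∧ m ∣ x - u ∧ |Algebra.norm ℤ x| ≤ X ∧ PrQ x} : ℝ) /
        (Nat.card {x : 𝓞 K4 // Squarefree x ∧ m ∣ x - u ∧ |Algebra.norm ℤ x| ≤ X} : ℝ) :=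
  density_Q hm hu PrQ
    (fun _ _ _ _ hG hE => PrQ.of (ls_all HE H3 HX1 HX2 HX3 hG) (hG.pts hE)) ε hε

end

end Pool.Agent.Lib.MP_1a91b9_ntQ
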