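import Pool.Agent.Lib.MP_1a91b9_ntQ.Q.Main4

/-!
# MP_1a91b9_nt (quartic twists), part Q: the exact density
-/

set_option autoImplicit false

namespace Pool.Agent.Lib.MP_1a91b9_ntQ

open NumberField IsDedekindDomain Finset Filter Topology
open Pool.Agent.Lib.MP_1a91b9_ntH (PS nm Sx mem_Sx)
open Den4 (ph)

noncomputable section

/-- a limit from two lower bounds -/
theorem lim_bounds4 {a b n : ℝ → ℕ} (h : ∀ X, a X + b X = n X) {c : ℝ}
    (h1 : ∀ ε : ℝ, 0 < ε → ∀ᶠ X : ℝ in atTop, c - ε ≤ (a X : ℝ) / (n X : ℝ))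
    (h2 : ∀ ε : ℝ, 0 < ε → ∀ᶠ X : ℝ in atTop, (1 - c) - ε ≤ (b X : ℝ) / (n X : ℝ)) :
    Tendsto (fun X => (a X : ℝ) / (n X : ℝ)) atTop (𝓝 c) := by
  have key : ∀ X, (a X : ℝ) / (n X : ℝ) + (b X : ℝ) / (n X : ℝ) ≤ 1 := by
    intro X
    rw [← add_div]
    have h3 : (a X : ℝ) + (b X : ℝ) = (n X : ℝ) := by exact_mod_cast h X
    rw [h3]
    exact div_self_le_one _
  refine tendsto_order.2 ⟨fun c' hc => ?_, fun c' hc => ?_⟩
  · filter_upwards [h1 ((c - c') / 2) (by linarith)] with X hX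
    linarith
  · filter_upwards [h2 ((c' - c) / 2) (by linarith)] with X hX
    linarith [key X]

/-- the number of elements with and without a property -/
theorem card_add4 {P : 𝓞 K4 → Prop} {X : ℝ} (Q : 𝓞 K4 → Prop)
    (hP : ∀ x, P x → |Algebra.norm ℤ x| ≤ X) :
    Nat.card {x : 𝓞 K4 // P x ∧ Q x} + Nat.card {x : 𝓞 K4 // P x ∧ ¬ Q x} =
      Nat.card {x : 𝓞 K4 // P x} := by
  classical
  have hf : {x : 𝓞 K4 | P x}.Finite := by
    refine (Nz_fin ⌊X⌋₊).subset fun x hx => ?_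
    have h1 := (Den4.abs_norm_le x X).1 (hP x hx)
    exact Nat.le_floor h1
  have e1 : Nat.card {x : 𝓞 K4 // P x} = {x : 𝓞 K4 | P x}.ncard := rfl
  have e2 : Nat.card {x : 𝓞 K4 // P x ∧ Q x} = ({x : 𝓞 K4 | P x} ∩ {x : 𝓞 K4 | Q x}).ncard := rfl
  have e3 : Nat.card {x : 𝓞 K4 // P x ∧ ¬ Q x} =
      ({x : 𝓞 K4 | P x} \ {x : 𝓞 K4 | Q x}).ncard := rfl
  rw [e1, e2, e3, Set.ncard_inter_add_ncard_sdiff_eq_ncard _ _ hf]

/-- The upper bound of the density of the good sets, in every class modulo `16`. -/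
def Up4 : Prop := ∀ (k : ZMod 4) (j : Fin 2) (g : G4n 3) (κ₀ : ℝ), κ₀ < 1 - Da.cinf2 →
  DS 3 g κ₀ fun S => ¬ Gd4 k j S

open Classical in
/-- **The exact density in a residue class modulo a divisor of `16`** of a property which holds for
`i ^ k lam ^ j ∏ (q ∈ S) q` exactly if `Gd4 k j S`. -/
theorem lim_Q (H : Up4) {M u : 𝓞 K4} (hM : M ∣ 16) (hu : ¬ ((2 : 𝓞 K4) ∣ M ∧ (2 : 𝓞 K4) ∣ u))
    (Pr : 𝓞 K4 → Prop)
    (hPr : ∀ (k : ZMod 4) (j : Fin 2) (S : Finset Pg), Pr (ph k j (DDq S)) ↔ Gd4 k j S) :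
    Tendsto (fun X : ℝ =>
      (Nat.card {x : 𝓞 K4 // Squarefree x ∧ M ∣ x - u ∧ |Algebra.norm ℤ x| ≤ X ∧ Pr x} : ℝ) /
        (Nat.card {x : 𝓞 K4 // Squarefree x ∧ M ∣ x - u ∧ |Algebra.norm ℤ x| ≤ X} : ℝ)) atTop
      (𝓝 (∏' i : ℕ, (1 + 1 / (2 : ℝ) ^ (i + 1))⁻¹)) := by
  refine lim_bounds4
    (b := fun X => Nat.card {x : 𝓞 K4 // Squarefree x ∧ M ∣ x - u ∧ |Algebra.norm ℤ x| ≤ X ∧
      ¬ Pr x}) (fun X => ?_)
    (fun ε hε => density_Q hM hu Pr (fun k j S _ h _ => (hPr k j S).2 h) ε hε) (fun ε hε => ?_)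
  · have h := card_add4 (P := fun x : 𝓞 K4 => Squarefree x ∧ M ∣ x - u ∧
      |Algebra.norm ℤ x| ≤ X) (X := X) Pr (fun x hx => hx.2.2)
    simp only [and_assoc] at h
    exact h
  · obtain ⟨u', hu', hMu⟩ := exists_rep hu
    rw [cinf2_form]
    have hM8 : M ∣ lam ^ (3 + 5) := by
      have e : lam ^ (3 + 5) = (16 : 𝓞 K4) := sixteen_lam.symm
      rw [e]
      exact hM
    have key := density4_cls 3 hM8 hu' (1 - Da.cinf2 - ε / 2) (1 - Da.cinf2 - ε) (by linarith)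
      (fun k j S => ¬ Gd4 k j S) (fun k j g _ η hη => H k j g _ (by linarith) η hη)
      (fun x => ¬ Pr x) (fun k j S _ h2 h3 => h2 ((hPr k j S).1 h3))
    simp only [dvd_sub_iff hMu] at key
    exact key

end

end Pool.Agent.Lib.MP_1a91b9_ntQ
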