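import Pool.Agent.Lib.MP_1a91b9_ntQ.Q.One4
import Pool.Agent.Lib.MP_1a91b9_ntQ.A.TopE

/-!
# MP_1a91b9_nt (quartic twists), part Q: the L-values of the class (E), `lam ∣ D`
-/

set_option autoImplicit false

namespace Pool.Agent.Lib.MP_1a91b9_ntQ

open Den4 (ph)

noncomputable section

theorem DqE_eq_ph (k : ZMod 4) (S : Finset Pg) : DqE k S = ph k 1 (DDq S) := by
  unfold DqE ph
  have e : ((1 : Fin 2)).val = 1 := rfl
  rw [e, pow_one]

/-- **The L-values of the class (E).** -/
theorem lsE : LsE := fun k S h => by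
  rw [← DqE_eq_ph]
  exact topE h

end

end Pool.Agent.Lib.MP_1a91b9_ntQ
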