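import Pool.Agent.Lib.MP_1a91b9_ntQ.C.Q24E
import Pool.Agent.Lib.MP_1a91b9_ntQ.C.Q24X
import Pool.Agent.Lib.MP_1a91b9_ntQ.A.AlgXc
import Pool.Agent.Lib.MP_1a91b9_ntQ.Q.LsE

/-!
# MP_1a91b9_nt (quartic twists), part Q: the formula modulo `2` for every squarefree `D`

`form4_all` : for `D = i ^ k lam ^ j ∏ (q ∈ S) q`, `D ≠ 1, -1`, the quotient `g(1) √|d| / Ω` is
`q ∏ c_v / 4` with a rational number `q` with odd denominator which is odd exactly if `Gd4 k j S`.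
-/

set_option autoImplicit false

namespace Pool.Agent.Lib.MP_1a91b9_ntQ

open NumberField IsDedekindDomain Finset
open Pool.Agent.Lib.MP_1a91b9_ntT.S9 (tam period)
open Den4 (ph)

noncomputable section

/-- The formula modulo `2` for `D` with the criterion `b`. -/
def FormQ (D : 𝓞 K4) (b : Prop) : Prop :=
  ∃ g : ℂ → ℂ, Differentiable ℂ g ∧ (∀ s : ℂ, 3 / 2 < s.re → g s = (WD4 D).LSeries s) ∧
    ∃ q : ℚ, ¬ 2 ∣ q.den ∧ (¬ (2 : ℤ) ∣ q.num ↔ b) ∧
      g 1 * (√|(discr K4 : ℝ)| : ℝ) / (period (WD4 D) : ℝ) =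
        (q * (((∏ᶠ v : HeightOneSpectrum (𝓞 K4), tam (WD4 D) v : ℕ) : ℝ) / 4) : ℝ)

theorem FormQ.congr {D : 𝓞 K4} {b c : Prop} (h : FormQ D b) (hbc : b ↔ c) : FormQ D c := by
  rwa [← propext hbc]

/-! ### The criterion in the classes -/

section
variable {S : Finset Pg}

theorem gd4_E (k : ZMod 4) : Gd4 k 1 S ↔
    (B4 s4 (fun q => md k * aa q.1 + bb q.1) (fun q => aa q.1) (xk4 k) S).det ≠ 0 := by
  have h10 : ¬ ((1 : Fin 2) = 0) := by decide
  exact ⟨fun h => h.1 rfl, fun h => ⟨fun _ => h, fun h' => absurd h' h10, fun h' => absurd h' h10,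
    fun h' => absurd h' h10, fun h' => absurd h' h10, fun h' => absurd h' h10⟩⟩

theorem gd4_I {k : ZMod 4} (hk : md k = 1) : Gd4 k 0 S ↔
    (N4 s4 (fun q => aa q.1) S).det ≠ 0 := by
  have h01 : ¬ ((0 : Fin 2) = 1) := by decide
  have k0 : k ≠ 0 := by
    rintro rfl
    exact absurd hk (by decide)
  have k2 : k ≠ 2 := by
    rintro rfl
    exact absurd hk (by decide)
  refine ⟨fun h => h.2.1 rfl hk, fun h => ⟨fun h' => absurd h' h01, fun _ _ => h, fun _ h' => ?_,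
    fun _ h' => absurd h' k2, fun _ h' => absurd h' k0, fun _ h' => absurd h' k0⟩⟩
  rw [hk] at h'
  exact absurd h' one_ne_zero

theorem gd4_II {k : ZMod 4} (hk : md k = 0) (hA : ∑ q ∈ S, aa q.1 = 1) : Gd4 k 0 S ↔ K2 S := by
  have h01 : ¬ ((0 : Fin 2) = 1) := by decide
  refine ⟨fun h => h.2.2.1 rfl hk hA, fun h => ⟨fun h' => absurd h' h01, fun _ h' => ?_,
    fun _ _ _ => h, fun _ _ h' => ?_, fun _ _ h' => ?_, fun _ _ h' => ?_⟩⟩
  · rw [hk] at h'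
    exact absurd h' zero_ne_one
  all_goals
    rw [hA] at h'
    exact absurd h' one_ne_zero

theorem gd4_X1 (hA : ∑ q ∈ S, aa q.1 = 0) : Gd4 2 0 S ↔ K3 (hf4 (∑ q ∈ S, nn q.1)) S := by
  have h01 : ¬ ((0 : Fin 2) = 1) := by decide
  have m2 : md 2 ≠ 1 := by decide
  have h20 : (2 : ZMod 4) ≠ 0 := by decide
  refine ⟨fun h => h.2.2.2.1 rfl rfl hA, fun h => ⟨fun h' => absurd h' h01,
    fun _ h' => absurd h' m2, fun _ _ h' => ?_, fun _ _ _ => h, fun _ h' => absurd h' h20,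
    fun _ h' => absurd h' h20⟩⟩
  rw [hA] at h'
  exact absurd h' zero_ne_one

theorem gd4_X2 (hA : ∑ q ∈ S, aa q.1 = 0)
    (hc : hf4 (∑ q ∈ S, nn q.1) + ∑ q ∈ S, bb q.1 = 1) : Gd4 0 0 S ↔ K2 S := by
  have h01 : ¬ ((0 : Fin 2) = 1) := by decide
  have m0 : md 0 ≠ 1 := by decide
  have h02 : (0 : ZMod 4) ≠ 2 := by decide
  refine ⟨fun h => h.2.2.2.2.1 rfl rfl hA hc, fun h => ⟨fun h' => absurd h' h01,
    fun _ h' => absurd h' m0, fun _ _ h' => ?_, fun _ h' => absurd h' h02, fun _ _ _ _ => h,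
    fun _ _ _ h' => ?_⟩⟩
  · rw [hA] at h'
    exact absurd h' zero_ne_one
  · rw [hc] at h'
    exact absurd h' one_ne_zero

theorem gd4_X3 (hA : ∑ q ∈ S, aa q.1 = 0)
    (hc : hf4 (∑ q ∈ S, nn q.1) + ∑ q ∈ S, bb q.1 = 0) :
    Gd4 0 0 S ↔ K3 (xl4 (∑ q ∈ S, c4 q lam)) S := by
  have h01 : ¬ ((0 : Fin 2) = 1) := by decide
  have m0 : md 0 ≠ 1 := by decide
  have h02 : (0 : ZMod 4) ≠ 2 := by decide
  refine ⟨fun h => h.2.2.2.2.2 rfl rfl hA hc, fun h => ⟨fun h' => absurd h' h01,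
    fun _ h' => absurd h' m0, fun _ _ h' => ?_, fun _ h' => absurd h' h02, fun _ _ _ h' => ?_,
    fun _ _ _ _ => h⟩⟩
  · rw [hA] at h'
    exact absurd h' zero_ne_one
  · rw [hc] at h'
    exact absurd h' zero_ne_one

/-! ### The cofactors -/

theorem form4_s4 : ∀ p q : Pg, p ≠ q → s4 p q = s4 q p := fun p q _ => IndX_s4 p q

theorem K2_iff (hS : S.Nonempty) : kap0 s4 S ≠ 0 ↔ K2 S := by
  rw [kap0_iff s4 form4_s4 hS]
  exact ⟨fun h => ⟨hS, h⟩, fun h => h.2⟩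

theorem K2_iff' (hA : ∑ q ∈ S, aa q.1 = 1) : C4 s4 (fun q => aa q.1) S ≠ 0 ↔ K2 S := by
  have hS : S.Nonempty := by
    rw [Finset.nonempty_iff_ne_empty]
    rintro rfl
    rw [Finset.sum_empty] at hA
    exact zero_ne_one hA
  rw [C4_kap0 s4 form4_s4 _ hS, hA, one_mul, K2_iff hS]

theorem K3_iff (hS : S.Nonempty) (hA : ∑ q ∈ S, aa q.1 = 0) (x : ZMod 2) :
    kapX s4 (fun q => aa q.1) x S ≠ 0 ↔ K3 x S := by
  rw [kapX_iff s4 form4_s4 _ x hS hA]
  exact ⟨fun h => ⟨hS, h⟩, fun h => h.2⟩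

end

/-! ### The result -/

/-- **The formula modulo `2`** for `D = i ^ k lam ^ j ∏ (q ∈ S) q`, `D ≠ 1, -1`. -/
theorem form4_all (k : ZMod 4) (j : Fin 2) (S : Finset Pg) (hne : ¬ (md k = 0 ∧ j = 0 ∧ S = ∅)) :
    FormQ (ph k j (DDq S)) (Gd4 k j S) := by
  rcases f2_cases' j with rfl | rfl
  · rw [← Dq_eq_ph]
    rcases md_cases' k with hk | hk
    · exact FormQ.congr (C.form4_I hk S) (gd4_I hk).symm
    · have hS : S.Nonempty := by
        rw [Finset.nonempty_iff_ne_empty]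
        exact fun h => hne ⟨hk, rfl, h⟩
      rcases z2_cases' (∑ q ∈ S, aa q.1) with hA | hA
      · rcases mk_cases' hk with rfl | rfl
        · rcases z2_cases' (hf4 (∑ q ∈ S, nn q.1) + ∑ q ∈ S, bb q.1) with hc | hc
          · exact FormQ.congr (C.form4_X3 hS hA hc) ((K3_iff hS hA _).trans (gd4_X3 hA hc).symm)
          · exact FormQ.congr (C.form4_X2 hS hA hc) ((K2_iff hS).trans (gd4_X2 hA hc).symm)
        · exact FormQ.congr (C.form4_X1 hS hA) ((K3_iff hS hA _).trans (gd4_X1 hA).symm)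
      · rcases mk_cases' hk with rfl | rfl
        · exact FormQ.congr (C.form4_II hA) ((K2_iff' hA).trans (gd4_II hk hA).symm)
        · exact FormQ.congr (C.form4_III hA) ((K2_iff' hA).trans (gd4_II hk hA).symm)
  · rw [← DqE_eq_ph]
    exact FormQ.congr (C.form4_E k S) (gd4_E k).symm

end

end Pool.Agent.Lib.MP_1a91b9_ntQ
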