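import Pool.Agent.Lib.MP_1a91b9_ntQ.Q.Dens4

/-!
# MP_1a91b9_nt (quartic twists), part Q: the points and the Tate-Shafarevich group for the good sets of
primes, without exceptions
-/

set_option autoImplicit false

namespace Pool.Agent.Lib.MP_1a91b9_ntQ

open NumberField IsDedekindDomain Finset
open Pool.Agent.Lib.MP_1a91b9_ntK (NM)
open Pool.Agent.Lib.MP_1a91b9_ntT3.S9 (ShaP)
open Den4 (ph)

noncomputable section

/-- **The Selmer elements** for the good sets of primes: the classes of `(0, 0)` and `O`. -/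
theorem Gd4.sel {k : ZMod 4} {j : Fin 2} {S : Finset Pg} (h : Gd4 k j S) :
    C.SelCl4 ((ph k j (DDq S) : 𝓞 K4) : K4) := by
  obtain ⟨h1, h2, h3, h4, h5, h6⟩ := h
  rcases f2_cases' j with rfl | rfl
  · rcases md_cases' k with hk | hk
    · refine C.sel4_I k S hk fun f hf => ?_
      have h7 := h2 rfl hk
      rw [N4_eq] at h7
      exact C.ker_of_det4 (c := 1) (κ := fun q => aa q.1) (fun q _ => by rw [one_mul]) h7 f hf
    · rcases z2_cases' (∑ q ∈ S, aa q.1) with hA | hA
      · rcases mk_cases' hk with rfl | rfl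
        · rcases z2_cases' (hf4 (∑ q ∈ S, nn q.1) + ∑ q ∈ S, bb q.1) with hc | hc
          · exact C.sel4_X3 S hA hc fun f s h7 h8 =>
              C.Bker_of_ker (a := fun q => aa q.1) (h6 rfl rfl hA hc).2 f s h7 h8
          · refine C.sel4_X2 S hA hc fun f hf => ?_
            have h7 := (h5 rfl rfl hA hc).2
            rw [N4_eq] at h7
            exact C.ker_of_ker4 (κ := 0) (fun _ _ => rfl) h7 f hf
        · exact C.sel4_X1 S hA fun f s h7 h8 =>
            C.Bker_of_ker (a := fun q => aa q.1) (h4 rfl rfl hA).2 f s h7 h8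
      · refine C.sel4_II k S hk hA fun f hf => ?_
        have h7 := (h3 rfl hk hA).2
        rw [N4_eq] at h7
        exact C.ker_of_ker4 (κ := 0) (fun _ _ => rfl) h7 f hf
  · refine C.sel4_IV k S fun f s h7 h8 => ?_
    refine C.Bker_of_det (c := md k) (l := fun q => c2 q lam) (a := fun q => aa q.1)
      (κ := fun q => md k * aa q.1 + bb q.1) (x := xk4 k) (fun q _ => ?_) (h1 rfl) f s h7 h8
    rw [c2_lam]

/-- **The points and the `2`-primary part of the Tate-Shafarevich group** for the good sets. -/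
theorem Gd4.fin {k : ZMod 4} {j : Fin 2} {S : Finset Pg} (h : Gd4 k j S) {W : WeierstrassCurve K4}
    (hW : W = C.cq ((ph k j (DDq S) : 𝓞 K4) : K4)) :
    Finite W.toAffine.Point ∧ Nat.card (ShaP 2 W) = 1 := by
  have hd : ((ph k j (DDq S) : 𝓞 K4) : K4) ≠ 0 := by
    intro h0
    refine (Den4.ph_squarefree k j S).ne_zero ?_
    exact (FaithfulSMul.algebraMap_injective (𝓞 K4) K4) (by rw [map_zero]; exact h0)
  obtain ⟨h1, -, h2⟩ := C.of_selCl4 hd iK_sq h.sel hW
  exact ⟨h1, h2⟩

end

end Pool.Agent.Lib.MP_1a91b9_ntQ
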