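import Pool.Agent.Lib.MP_1a91b9_ntQ.C.Cfn
import Pool.Agent.Lib.MP_1a91b9_ntQ.Q.Dir4
import Pool.Agent.Lib.MP_1a91b9_ntQ.R.Ring4

/-!
# MP_1a91b9_nt (quartic twists): the 2-primary part of the group of points of `y² = x³ - D x` over
`ℚ(i)` has two elements if `D` is squarefree and `D ^ 2 ≠ 1`
-/

set_option autoImplicit false

namespace Pool.Agent.Lib.MP_1a91b9_ntQ.Tor4

open NumberField WeierstrassCurve Pool.Agent.Lib.MP_1a91b9_nuT
open Pool.Agent.Lib.MP_1a91b9_ntQ Pool.Agent.Lib.MP_1a91b9_ntQ.C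
open scoped Classical

section

variable {F : Type*} [Field F] [CharZero F] {W : Affine F} {z d : F}

theorem mu_ne_tq (h : IsQ W z d) (hnd : ¬ IsSquare d) (Q : W.Point) : mu h Q ≠ tq h := by
  intro hQ
  obtain ⟨x, y, hn, rfl, hx0⟩ := mu_ne_cases h Q (by
    rw [hQ]
    exact tq_ne h)
  obtain ⟨x', y', hn', h1, h2⟩ := mu_x h hn hx0
  rw [h1] at hQ
  have h3 : x' = 0 := (Affine.Point.some.inj hQ).1
  rw [h3, eq_comm, div_eq_zero_iff] at h2
  rcases h2 with h4 | h4
  · apply hnd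
    refine ⟨x, ?_⟩
    have h5 := (mul_eq_zero.1 h4).resolve_left h.z0
    linear_combination -h5
  · exact mul_ne_zero two_ne_zero hx0 h4

theorem mu_twice (h : IsQ W z d) (hnd : ¬ IsSquare d) (P : W.Point) (hP : mu h (mu h P) = 0) :
    mu h P = 0 :=
  (mu_ker_all h _ hP).resolve_right (mu_ne_tq h hnd P)

/-- a point killed by a power of `2` is killed by `mu` -/
theorem mu_of_pow (h : IsQ W z d) (hnd : ¬ IsSquare d) (j : ℕ) :
    ∀ P : W.Point, 2 ^ j • P = 0 → mu h P = 0 := by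
  induction j with
  | zero =>
    intro P hP
    rw [pow_zero, one_smul] at hP
    rw [hP, _root_.map_zero]
  | succ j ih =>
    intro P hP
    have h1 : 2 ^ j • (2 • P) = 0 := by rw [smul_smul, ← pow_succ, hP]
    have h2 := ih _ h1
    have h3 : mu h (mu h (mu h P)) = 0 := by
      rw [mu_mu, neg_eq_zero, ← map_nsmul, ← map_nsmul, h2, _root_.map_zero]
    exact mu_twice h hnd P (mu_twice h hnd _ h3)

theorem card_prim (h : IsQ W z d) (hnd : ¬ IsSquare d) :
    Nat.card (AddCommGroup.primaryComponent W.Point 2) = 2 := by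
  have hset : (AddCommGroup.primaryComponent W.Point 2 : Set W.Point) = {0, tq h} := by
    ext P
    simp only [SetLike.mem_coe, Set.mem_insert_iff, Set.mem_singleton_iff]
    constructor
    · rintro ⟨j, hj⟩
      exact mu_ker_all h P (mu_of_pow h hnd j P hj)
    · rintro (rfl | rfl)
      · exact zero_mem _
      · refine ⟨1, ?_⟩
        rw [pow_one, two_smul, tq_add_self]
  have h1 : Nat.card (AddCommGroup.primaryComponent W.Point 2) =
      (AddCommGroup.primaryComponent W.Point 2 : Set W.Point).ncard := rfl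
  rw [h1, hset, Set.ncard_pair (tq_ne h).symm]

end

theorem not_sq {D : 𝓞 K4} (hD : Squarefree D) (hD2 : D ^ 2 ≠ 1) : ¬ IsSquare (D : K4) := by
  rintro ⟨x, hx⟩
  have hint : IsIntegral ℤ x := by
    refine IsIntegral.of_pow (n := 2) (by norm_num) ?_
    rw [sq, ← hx]
    exact D.2
  obtain ⟨X, rfl⟩ : ∃ X : 𝓞 K4, (X : K4) = x := ⟨⟨x, hint⟩, rfl⟩
  have hX : D = X * X := by
    apply RingOfIntegers.ext
    rw [hx]
    simp
  have hu : IsUnit X := hD X ⟨1, by rw [hX, mul_one]⟩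
  obtain ⟨k, hk, rfl⟩ := exists_unit hu
  apply hD2
  rw [hX]
  calc (iO ^ k * iO ^ k) ^ 2 = (iO ^ 4) ^ k := by ring
    _ = 1 := by rw [iO_pow4, one_pow]

/-- The 2-primary part of the group of points of `y² = x³ - D x` over `ℚ(i)`. -/
theorem card_prim4 {D : 𝓞 K4} (hD : Squarefree D) (hD2 : D ^ 2 ≠ 1) {W : WeierstrassCurve K4}
    (hW : W = ⟨0, 0, 0, -(D : K4), 0⟩) :
    Nat.card (AddCommGroup.primaryComponent W.toAffine.Point 2) = 2 := by
  have hD0 : (D : K4) ≠ 0 := by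
    intro h
    have : D = 0 := by
      apply RingOfIntegers.ext
      rw [h]
      simp
    exact hD.ne_zero this
  subst hW
  have h : IsQ (⟨0, 0, 0, -(D : K4), 0⟩ : WeierstrassCurve K4).toAffine iK (D : K4) :=
    ⟨rfl, iK_sq, hD0⟩
  exact card_prim h (not_sq hD hD2)

end Pool.Agent.Lib.MP_1a91b9_ntQ.Tor4
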