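import Pool.Agent.Lib.MP_1a91b9_ntQ.Q.One4L
import Pool.Agent.Lib.MP_1a91b9_ntQ.Q.Tor4
import Pool.Agent.Lib.MP_1a91b9_ntS.R.Defs

/-!
# MP_1a91b9_nt (quartic twists), part Q: the conjecture of Birch and Swinnerton-Dyer modulo `2`

`bsd4` : for every squarefree `D` of `ℤ[i]`, from the formula modulo `2` (`form4_all`) and the two
directions of the descent.
-/

set_option autoImplicit false

namespace Pool.Agent.Lib.MP_1a91b9_ntQ

open NumberField IsDedekindDomain Finset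
open Pool.Agent.Lib.MP_1a91b9_ntT.S9 (tam period)
open Pool.Agent.Lib.MP_1a91b9_ntT3.S9 (ShaP)
open Pool.Agent.Lib.MP_1a91b9_ntS (BSDMod)
open Den4 (ph)
open scoped Classical

noncomputable section

/-- The formula of Birch and Swinnerton-Dyer from the L side and the descent. -/
theorem FormQ.bsd {D : 𝓞 K4} {b : Prop} (h : FormQ D b)
    (hc : Nat.card (AddCommGroup.primaryComponent (WD4 D).toAffine.Point 2) = 2)
    (hb : b ↔ Finite (WD4 D).toAffine.Point ∧ Nat.card (ShaP 2 (WD4 D)) = 1) :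
    ∃ q : ℚ, BSDMod 2 (WD4 D) q ∧ (¬ (2 : ℤ) ∣ q.num ↔ b) := by
  obtain ⟨g, hgd, hgs, q, h1, h2, h3⟩ := h
  refine ⟨q, ⟨⟨g, hgd, hgs, ?_⟩, h1, ?_⟩, h2⟩
  · rw [h3, hc]
    norm_num
  · have h4 : ((2 : ℕ) : ℤ) = 2 := rfl
    rw [h4, h2, hb]

/-- the same with a given quotient -/
theorem bsd4_of {D : 𝓞 K4} {n : ℕ}
    (h : ∃ g : ℂ → ℂ, Differentiable ℂ g ∧ (∀ s : ℂ, 3 / 2 < s.re → g s = (WD4 D).LSeries s) ∧
      g 1 * (√|(discr K4 : ℝ)| : ℝ) / (period (WD4 D) : ℝ) = (((1 : ℚ) : ℝ) *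
        (((∏ᶠ v : HeightOneSpectrum (𝓞 K4), tam (WD4 D) v : ℕ) : ℝ) / (n : ℝ) ^ 2) : ℝ))
    (hc : Nat.card (AddCommGroup.primaryComponent (WD4 D).toAffine.Point 2) = n)
    (hb : Finite (WD4 D).toAffine.Point ∧ Nat.card (ShaP 2 (WD4 D)) = 1) :
    BSDMod 2 (WD4 D) 1 := by
  obtain ⟨g, hgd, hgs, h3⟩ := h
  refine ⟨⟨g, hgd, hgs, ?_⟩, ?_, ?_⟩
  · rw [h3, hc]
  · rw [Rat.den_one]
    norm_num
  · rw [Rat.num_one]
    exact ⟨fun _ => hb, fun _ => by norm_num⟩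

/-! ### The inputs of the descent -/

/-- the good `D` have rank `0` and trivial `Sha[2^∞]` -/
def FwQ : Prop := ∀ (k : ZMod 4) (j : Fin 2) (S : Finset Pg), Gd4 k j S →
  Finite (WD4 (ph k j (DDq S))).toAffine.Point ∧ Nat.card (ShaP 2 (WD4 (ph k j (DDq S)))) = 1

/-- the converse -/
def CvQ : Prop := ∀ (k : ZMod 4) (j : Fin 2) (S : Finset Pg),
  ¬ (md k = 0 ∧ j = 0 ∧ S = ∅) → Finite (WD4 (ph k j (DDq S))).toAffine.Point →
    Nat.card (ShaP 2 (WD4 (ph k j (DDq S)))) = 1 → Gd4 k j S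

/-- the curve `y² = x³ - D x` for `D = 1` (`n = 8`) and `D = -1` (`n = 4`) -/
def OnQ (D : 𝓞 K4) (n : ℕ) : Prop := Finite (WD4 D).toAffine.Point ∧
  Nat.card (AddCommGroup.primaryComponent (WD4 D).toAffine.Point 2) = n ∧
    Nat.card (ShaP 2 (WD4 D)) = 1

theorem FwQ.of (hE : ∀ D : 𝓞 K4, Exc D → ∀ W : WeierstrassCurve K4, W = C.cq (D : K4) →
    Finite W.toAffine.Point ∧ Nat.card (ShaP 2 W) = 1) : FwQ := by
  intro k j S hG
  by_cases h : Exc (ph k j (DDq S))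
  · exact hE _ h _ rfl
  · have h1 := hG.pts h (WD4 (ph k j (DDq S))) rfl
    exact ⟨h1.1, h1.2.2.1⟩

/-! ### The squares of the squarefree elements -/

theorem ph_sq_ne {k : ZMod 4} {j : Fin 2} {S : Finset Pg} (h : ¬ (md k = 0 ∧ j = 0 ∧ S = ∅)) :
    ph k j (DDq S) ^ 2 ≠ 1 := by
  intro h1
  have hu : IsUnit (ph k j (DDq S)) := by
    refine IsUnit.of_mul_eq_one (ph k j (DDq S)) ?_
    rw [← pow_two, h1]
  have hj : j = 0 := by
    rcases f2_cases' j with hj | hj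
    · exact hj
    · exfalso
      rw [hj] at hu
      apply lam_prime.not_isUnit
      refine isUnit_of_dvd_unit ?_ hu
      unfold ph
      have e : ((1 : Fin 2)).val = 1 := rfl
      rw [e, pow_one]
      exact (dvd_mul_left lam _).mul_right _
  have hS : S = ∅ := by
    by_contra hS
    obtain ⟨q, hq⟩ := Finset.nonempty_iff_ne_empty.2 hS
    apply q.prime.not_isUnit
    refine isUnit_of_dvd_unit ?_ hu
    unfold ph
    exact (dvd_DDq.2 hq).mul_left _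
  have hk : md k = 1 := by
    rcases md_cases' k with hk | hk
    · exact hk
    · exact absurd ⟨hk, hj, hS⟩ h
  rw [hj, hS, ← Dq_eq_ph, Dq, DDq_empty, mul_one] at h1
  have h2 : iO ^ 2 = -1 := iO_sq
  have h3 : (-1 : 𝓞 K4) = 1 := by
    have key : ∀ k : ZMod 4, md k = 1 → k.val = 1 ∨ k.val = 3 := by decide
    rcases key k hk with h4 | h4
    · rw [h4, pow_one] at h1
      rw [← h2, h1]
    · rw [h4] at h1
      have e : (iO ^ 3) ^ 2 = (iO ^ 2) ^ 3 := by ring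
      rw [e, h2] at h1
      linear_combination h1
  have h5 : (2 : 𝓞 K4) = 0 := by linear_combination -h3
  exact two_ne_zero h5

theorem ph_sq_eq {k : ZMod 4} {j : Fin 2} {S : Finset Pg} (h : md k = 0 ∧ j = 0 ∧ S = ∅) :
    ph k j (DDq S) = 1 ∨ ph k j (DDq S) = -1 := by
  obtain ⟨hk, rfl, rfl⟩ := h
  rw [← Dq_eq_ph]
  rcases mk_cases' hk with rfl | rfl
  · exact Or.inl one4L_zero
  · exact Or.inr one4L_two

/-! ### The result -/

/-- **The conjecture of Birch and Swinnerton-Dyer modulo `2`** for every squarefree `D` in `ℤ[i]`: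
the normalised value is odd exactly for the `D` with `Gd4 k j S`, and for `D = 1, -1`. -/
theorem bsd4 (hF : FwQ) (hC : CvQ) (h1 : OnQ 1 8) (h2 : OnQ (-1) 4) :
    ∃ q : 𝓞 K4 → ℚ, (∀ D : 𝓞 K4, Squarefree D → BSDMod 2 (WD4 D) (q D)) ∧
      ∀ (k : ZMod 4) (j : Fin 2) (S : Finset Pg),
        (¬ (2 : ℤ) ∣ (q (ph k j (DDq S))).num ↔ Gd4 k j S ∨ (md k = 0 ∧ j = 0 ∧ S = ∅)) := by
  have e1 : BSDMod 2 (WD4 1) 1 := by
    refine bsd4_of (n := 8) ?_ h1.2.1 ⟨h1.1, h1.2.2⟩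
    have h := form4_one
    have h8 : ((8 : ℕ) : ℝ) ^ 2 = 64 := by norm_num
    rw [h8]
    exact h
  have e2 : BSDMod 2 (WD4 (-1)) 1 := by
    refine bsd4_of (n := 4) ?_ h2.2.1 ⟨h2.1, h2.2.2⟩
    have h := form4_neg_one
    have h8 : ((4 : ℕ) : ℝ) ^ 2 = 16 := by norm_num
    rw [h8]
    exact h
  have key : ∀ D : 𝓞 K4, ∃ q : ℚ, (Squarefree D → BSDMod 2 (WD4 D) q) ∧
      ∀ (k : ZMod 4) (j : Fin 2) (S : Finset Pg), D = ph k j (DDq S) →
        (¬ (2 : ℤ) ∣ q.num ↔ Gd4 k j S ∨ (md k = 0 ∧ j = 0 ∧ S = ∅)) := by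
    intro D
    by_cases hD : Squarefree D
    swap
    · refine ⟨0, fun h => absurd h hD, fun k j S h => ?_⟩
      exact absurd (h ▸ Den4.ph_squarefree k j S) hD
    obtain ⟨k, j, S, hkjS⟩ := exists_sqf hD
    have hph : D = ph k j (DDq S) := hkjS
    have huni : ∀ (k' : ZMod 4) (j' : Fin 2) (S' : Finset Pg), D = ph k' j' (DDq S') →
        k' = k ∧ j' = j ∧ S' = S := by
      intro k' j' S' h
      have h3 : iO ^ k'.val * lam ^ j'.val * DDq S' = iO ^ k.val * lam ^ j.val * DDq S :=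
        h.symm.trans hph
      obtain ⟨a1, a2, a3⟩ := sqf_inj h3
      exact ⟨a1, a2, a3⟩
    by_cases hne : md k = 0 ∧ j = 0 ∧ S = ∅
    · refine ⟨1, fun _ => ?_, fun k' j' S' h => ?_⟩
      · rcases ph_sq_eq hne with h3 | h3
        · rw [hph, h3]
          exact e1
        · rw [hph, h3]
          exact e2
      · obtain ⟨rfl, rfl, rfl⟩ := huni k' j' S' h
        rw [Rat.num_one]
        exact ⟨fun _ => Or.inr hne, fun _ => by norm_num⟩
    · have hF' := form4_all k j S hne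
      rw [← hph] at hF'
      have hc : Nat.card (AddCommGroup.primaryComponent (WD4 D).toAffine.Point 2) = 2 := by
        refine Tor4.card_prim4 hD ?_ rfl
        rw [hph]
        exact ph_sq_ne hne
      have hb : Gd4 k j S ↔ Finite (WD4 D).toAffine.Point ∧ Nat.card (ShaP 2 (WD4 D)) = 1 := by
        rw [hph]
        exact ⟨fun hG => hF k j S hG, fun h3 => hC k j S hne h3.1 h3.2⟩
      obtain ⟨q, hq1, hq2⟩ := hF'.bsd hc hb
      refine ⟨q, fun _ => hq1, fun k' j' S' h => ?_⟩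
      obtain ⟨rfl, rfl, rfl⟩ := huni k' j' S' h
      rw [hq2]
      exact ⟨fun h3 => Or.inl h3, fun h3 => h3.resolve_right hne⟩
  choose q hq1 hq2 using key
  exact ⟨q, hq1, fun k j S => hq2 _ k j S rfl⟩

end

end Pool.Agent.Lib.MP_1a91b9_ntQ
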