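import Pool.Agent.Lib.MP_1a91b9_ntQ.Q.One4
import Pool.Agent.Lib.MP_1a91b9_ntQ.Q.Const4

/-!
# MP_1a91b9_nt (quartic twists), part Q: the density in the residue classes modulo a divisor of `16`
-/

set_option autoImplicit false

namespace Pool.Agent.Lib.MP_1a91b9_ntQ

open NumberField IsDedekindDomain Finset
open Pool.Agent.Lib.MP_1a91b9_ntH (PS nm Sx mem_Sx)
open Den4 (ph)

noncomputable section

/-! ### a finite set of exceptions -/

/-- Leaving out a finite set does not change the density. -/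
theorem DS.exc {m : ℕ} {g : G4n m} {κ₀ : ℝ} {Q : Finset Pg → Prop} (h : DS m g κ₀ Q)
    {F : Set (Finset Pg)} (hF : F.Finite) : DS m g κ₀ fun S => Q S ∧ S ∉ F := by
  classical
  obtain ⟨Q', hQ'⟩ : ∃ Q' : Finset Pg → Prop, Q' = fun S => Q S ∧ S ∉ F := ⟨_, rfl⟩
  rw [← hQ']
  intro ε hε
  obtain ⟨X0, h0⟩ := h (ε / 2) (by positivity)
  obtain ⟨X1, hX1⟩ := exists_nat_ge ((hF.toFinset.card : ℝ) / (ε / 2))
  refine ⟨max X0 X1, fun X hX => ?_⟩
  have h1 := h0 X ((le_max_left _ _).trans hX)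
  have h2 : (hF.toFinset.card : ℝ) ≤ ε / 2 * X := by
    have h3 : (X1 : ℝ) ≤ X := Nat.cast_le.2 ((le_max_right _ _).trans hX)
    have h4 := hX1.trans h3
    rw [div_le_iff₀ (by positivity)] at h4
    linarith
  have h3 : ((Sx Pg X).filter fun S => ∑ q ∈ S, clq m q = g ∧ Q S).card ≤
      ((Sx Pg X).filter fun S => ∑ q ∈ S, clq m q = g ∧ Q' S).card +
        hF.toFinset.card := by
    refine (card_le_card ?_).trans (card_union_le _ _)
    intro S hS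
    rw [mem_filter] at hS
    rw [mem_union, mem_filter, Set.Finite.mem_toFinset]
    by_cases hSF : S ∈ F
    · exact Or.inr hSF
    · exact Or.inl ⟨hS.1, hS.2.1, by rw [hQ']; exact ⟨hS.2.2, hSF⟩⟩
  have h4 : (((Sx Pg X).filter fun S => ∑ q ∈ S, clq m q = g ∧ Q S).card : ℝ) ≤
      (((Sx Pg X).filter fun S => ∑ q ∈ S, clq m q = g ∧ Q' S).card : ℝ) +
        (hF.toFinset.card : ℝ) := by
    exact_mod_cast h3
  linarith

theorem ph_fin (k : ZMod 4) (j : Fin 2) (c : 𝓞 K4) : {S : Finset Pg | ph k j (DDq S) = c}.Finite := by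
  refine Set.Subsingleton.finite ?_
  intro S hS T hT
  have h1 : ph k j (DDq S) = c := hS
  have h2 : ph k j (DDq T) = c := hT
  exact (sqf_inj (h1.trans h2.symm)).2.2

theorem exc_fin (k : ZMod 4) (j : Fin 2) : {S : Finset Pg | Exc (ph k j (DDq S))}.Finite := by
  have h := (ph_fin k j (1 + 2 * iO)).union (ph_fin k j (1 - 2 * iO))
  exact h

theorem gd4_exc {m : ℕ} (hm : 2 ≤ m) (k : ZMod 4) (j : Fin 2) (g : G4n m) {κ₀ : ℝ}
    (hκ : κ₀ < Da.cinf2) :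
    DS m g κ₀ fun S => Gd4 k j S ∧ ¬ Exc (ph k j (DDq S)) :=
  (gd4 hm k j g hκ).exc (exc_fin k j)

/-! ### the residue classes -/

theorem two_lam : (2 : 𝓞 K4) = -iO * lam ^ 2 := by
  rw [lam_sq]
  linear_combination 2 * iO_sq

theorem sixteen_lam : (16 : 𝓞 K4) = lam ^ 8 := by
  have h : lam ^ 8 = (lam ^ 4) ^ 2 := by ring
  rw [h, lam_four]
  norm_num

theorem two_dvd_lam (x : 𝓞 K4) : (2 : 𝓞 K4) ∣ x ↔ lam ^ 2 ∣ x := by
  constructor
  · intro h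
    refine Dvd.dvd.trans ⟨-iO, ?_⟩ h
    rw [two_lam]
    ring
  · intro h
    refine Dvd.dvd.trans ⟨iO, ?_⟩ h
    rw [lam_sq]

/-- a representative of the class which is not divisible by `lam ^ 2` -/
theorem exists_rep {M u : 𝓞 K4} (hu : ¬ ((2 : 𝓞 K4) ∣ M ∧ (2 : 𝓞 K4) ∣ u)) :
    ∃ u' : 𝓞 K4, ¬ lam ^ 2 ∣ u' ∧ M ∣ u' - u := by
  by_cases h : (2 : 𝓞 K4) ∣ u
  · refine ⟨u + M, fun h1 => hu ⟨?_, h⟩, ⟨1, by ring⟩⟩
    rw [two_dvd_lam] at h ⊢
    exact (dvd_add_right h).1 h1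
  · exact ⟨u, fun h1 => h ((two_dvd_lam u).2 h1), by rw [sub_self]; exact dvd_zero _⟩

theorem dvd_sub_iff {M u u' : 𝓞 K4} (h : M ∣ u' - u) (x : 𝓞 K4) : M ∣ x - u' ↔ M ∣ x - u := by
  constructor
  · intro h1
    have e : x - u = (x - u') + (u' - u) := by ring
    rw [e]
    exact dvd_add h1 h
  · intro h1
    have e : x - u' = (x - u) - (u' - u) := by ring
    rw [e]
    exact dvd_sub h1 h

/-- **The density in a residue class modulo a divisor of `16`**, from Q1 for the good sets. -/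
theorem density_Q {M u : 𝓞 K4} (hM : M ∣ 16) (hu : ¬ ((2 : 𝓞 K4) ∣ M ∧ (2 : 𝓞 K4) ∣ u))
    (Pr : 𝓞 K4 → Prop)
    (hPr : ∀ (k : ZMod 4) (j : Fin 2) (S : Finset Pg), M ∣ ph k j (DDq S) - u → Gd4 k j S →
      ¬ Exc (ph k j (DDq S)) → Pr (ph k j (DDq S)))
    (ε : ℝ) (hε : 0 < ε) :
    ∀ᶠ X : ℝ in Filter.atTop,
      (∏' i : ℕ, (1 + 1 / (2 : ℝ) ^ (i + 1))⁻¹) - ε ≤
      (Nat.card {x : 𝓞 K4 // Squarefree x ∧ M ∣ x - u ∧ |Algebra.norm ℤ x| ≤ X ∧ Pr x} : ℝ) /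
        (Nat.card {x : 𝓞 K4 // Squarefree x ∧ M ∣ x - u ∧ |Algebra.norm ℤ x| ≤ X} : ℝ) := by
  obtain ⟨u', hu', hMu⟩ := exists_rep hu
  rw [cinf2_form]
  have hM8 : M ∣ lam ^ (3 + 5) := by
    have e : lam ^ (3 + 5) = (16 : 𝓞 K4) := sixteen_lam.symm
    rw [e]
    exact hM
  have key := density4_cls 3 hM8 hu' (Da.cinf2 - ε / 2) (Da.cinf2 - ε) (by linarith)
    (fun k j S => Gd4 k j S ∧ ¬ Exc (ph k j (DDq S)))
    (fun k j g _ η hη => gd4_exc (by norm_num) k j g (by linarith) η hη) Pr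
    (fun k j S h1 h2 => hPr k j S ((dvd_sub_iff hMu _).1 h1) h2.1 h2.2)
  simp only [dvd_sub_iff hMu] at key
  exact key

end

end Pool.Agent.Lib.MP_1a91b9_ntQ
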