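import Pool.Agent.Lib.MP_1a91b9_ntQ.Q.Main4

/-!
# MP_1a91b9_nt (quartic twists), part Q: the final statements, from the L-values
-/

set_option autoImplicit false

namespace Pool.Agent.Lib.MP_1a91b9_ntQ

open NumberField IsDedekindDomain

/-- the odd classes different from `± 1` modulo `4` -/
theorem final_odd (H3 : Ls3) (i m u : 𝓞 (CyclotomicField 4 ℚ)) (hi : i ^ 2 = -1) (h4 : 4 ∣ m)
    (hm : m ∣ 16) (h0 : ¬ 1 + i ∣ u) (h1 : ¬ 4 ∣ u - 1) (h2 : ¬ 4 ∣ u + 1) (ε : ℝ) (hε : 0 < ε) :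
    ∀ᶠ X : ℝ in Filter.atTop,
    (∏' j : ℕ, (1 + 1 / (2 : ℝ) ^ (j + 1))⁻¹) - ε ≤
      (Nat.card {D : 𝓞 (CyclotomicField 4 ℚ) // Squarefree D ∧ m ∣ D - u ∧
        |Algebra.norm ℤ D| ≤ X ∧
        (∀ W : WeierstrassCurve (CyclotomicField 4 ℚ),
          W = ⟨0, 0, 0, -(D : CyclotomicField 4 ℚ), 0⟩ →
          (∃ g : ℂ → ℂ, Differentiable ℂ g ∧ (∀ s : ℂ, 3 / 2 < s.re → g s = W.LSeries s) ∧
            g 1 ≠ 0) ∧ Finite W.toAffine.Point) ∧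
        ∀ x y : CyclotomicField 4 ℚ, y ^ 2 = x ^ 3 - (D : CyclotomicField 4 ℚ) * x →
          x = 0 ∧ y = 0} : ℝ) /
      (Nat.card {D : 𝓞 (CyclotomicField 4 ℚ) // Squarefree D ∧ m ∣ D - u ∧
        |Algebra.norm ℤ D| ≤ X} : ℝ) :=
  main_odd H3 (i := i) (m := m) (u := u) hi h4 hm h0 h1 h2 ε hε

/-- all the squarefree `D` -/
theorem final_all (HE : LsE) (H3 : Ls3) (HX1 : LsX1) (HX2 : LsX2) (HX3 : LsX3)
    (m u : 𝓞 (CyclotomicField 4 ℚ)) (hm : m ∣ 16) (hu : ¬ (2 ∣ m ∧ 2 ∣ u)) (ε : ℝ) (hε : 0 < ε) :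
    ∀ᶠ X : ℝ in Filter.atTop,
    (∏' j : ℕ, (1 + 1 / (2 : ℝ) ^ (j + 1))⁻¹) - ε ≤
      (Nat.card {D : 𝓞 (CyclotomicField 4 ℚ) // Squarefree D ∧ m ∣ D - u ∧
        |Algebra.norm ℤ D| ≤ X ∧
        (∀ W : WeierstrassCurve (CyclotomicField 4 ℚ),
          W = ⟨0, 0, 0, -(D : CyclotomicField 4 ℚ), 0⟩ →
          (∃ g : ℂ → ℂ, Differentiable ℂ g ∧ (∀ s : ℂ, 3 / 2 < s.re → g s = W.LSeries s) ∧
            g 1 ≠ 0) ∧ Finite W.toAffine.Point) ∧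
        ∀ x y : CyclotomicField 4 ℚ, y ^ 2 = x ^ 3 - (D : CyclotomicField 4 ℚ) * x →
          x = 0 ∧ y = 0} : ℝ) /
      (Nat.card {D : 𝓞 (CyclotomicField 4 ℚ) // Squarefree D ∧ m ∣ D - u ∧
        |Algebra.norm ℤ D| ≤ X} : ℝ) :=
  main_all HE H3 HX1 HX2 HX3 (m := m) (u := u) hm hu ε hε

end Pool.Agent.Lib.MP_1a91b9_ntQ
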