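import Pool.Agent.Lib.MP_1a91b9_ntQ.Q.One4
import Pool.Agent.Lib.MP_1a91b9_ntQ.A.TopX1

/-!
# MP_1a91b9_nt (quartic twists), part Q: the L-values, `D = 1` modulo `4`
-/

set_option autoImplicit false

namespace Pool.Agent.Lib.MP_1a91b9_ntQ

open Den4 (ph)

noncomputable section

/-- **The L-values for `D = DD_S = 1` modulo `4`**, first order. -/
theorem lsX2 : LsX2 := fun S hA hc h => by
  rw [← Dq_eq_ph]
  exact serX hA (L4_zero_ne h.1 hA hc (kap0_ne s4 (fun p q _ => IndX_s4 p q) h.1 h.2))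

/-- **The L-values for `D = DD_S = 1` modulo `4`**, second order. -/
theorem lsX3 : LsX3 := fun S hA hc h => by
  rw [← Dq_eq_ph]
  exact serX hA (L4_zero_ne' h.1 hA hc (kapX_ne s4 (fun p q _ => IndX_s4 p q) _ _ h.1 hA h.2))

end

end Pool.Agent.Lib.MP_1a91b9_ntQ
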