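import Pool.Agent.Lib.MP_1a91b9_ntQ.Q.One4
import Pool.Agent.Lib.MP_1a91b9_ntQ.A.TopX2

/-!
# MP_1a91b9_nt (quartic twists), part Q: the L-values, `D = - 1` modulo `4`
-/

set_option autoImplicit false

namespace Pool.Agent.Lib.MP_1a91b9_ntQ

open Den4 (ph)

noncomputable section

/-- **The L-values for `D = - DD_S`, `DD_S = 1` modulo `4`.** -/
theorem lsX1 : LsX1 := fun S hA h => by
  rw [← Dq_eq_ph]
  exact serX hA (L4_two_ne' h.1 hA h.2)

end

end Pool.Agent.Lib.MP_1a91b9_ntQ
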