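import Pool.Agent.Lib.MP_1a91b9_ntQ.A.Top4
import Pool.Agent.Lib.MP_1a91b9_ntQ.C.PtsX
import Pool.Agent.Lib.MP_1a91b9_ntQ.D.Fin4

/-!
# MP_1a91b9_nt (quartic twists), part Q: Q1 for one `D = i ^ k lam ^ j ∏ (q ∈ S) q`

`PrQ D`: the L-series of `y² = x³ - D x` over `ℚ(i)` has an entire continuation which is not zero
at `1`, and `(0, 0)` and the point at infinity are the only points.
-/

set_option autoImplicit false

namespace Pool.Agent.Lib.MP_1a91b9_ntQ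

open NumberField IsDedekindDomain Finset
open Pool.Agent.Lib.MP_1a91b9_ntH (PS nm Sx mem_Sx)
open Pool.Agent.Lib.MP_1a91b9_ntT3.S9 (ShaP)
open Den4 (ph)

noncomputable section

/-- The L-series has an entire continuation which is not zero at `1`. -/
def LQ (D : 𝓞 K4) : Prop :=
  ∃ g : ℂ → ℂ, Differentiable ℂ g ∧ (∀ s : ℂ, 3 / 2 < s.re → g s = (WD4 D).LSeries s) ∧ g 1 ≠ 0

/-- The property of Q1. -/
def PrQ (D : 𝓞 K4) : Prop :=
  (∀ W : WeierstrassCurve K4, W = ⟨0, 0, 0, -(D : K4), 0⟩ →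
    (∃ g : ℂ → ℂ, Differentiable ℂ g ∧ (∀ s : ℂ, 3 / 2 < s.re → g s = W.LSeries s) ∧ g 1 ≠ 0) ∧
      Finite W.toAffine.Point) ∧
    ∀ x y : K4, y ^ 2 = x ^ 3 - (D : K4) * x → x = 0 ∧ y = 0

/-- The conclusion of part C. -/
def PtQ (D : 𝓞 K4) : Prop :=
  ∀ W : WeierstrassCurve K4, W = C.cq (D : K4) →
    Finite W.toAffine.Point ∧ Nat.card W.toAffine.Point = 2 ∧ Nat.card (ShaP 2 W) = 1 ∧
      ∀ x y : K4, y ^ 2 = x ^ 3 - (D : K4) * x → x = 0 ∧ y = 0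

theorem PrQ.of {D : 𝓞 K4} (h1 : LQ D) (h2 : PtQ D) : PrQ D := by
  refine ⟨?_, (h2 _ rfl).2.2.2⟩
  rintro W rfl
  exact ⟨h1, (h2 _ rfl).1⟩

/-! ### the points -/

/-- The two exceptions. -/
def Exc (D : 𝓞 K4) : Prop := D = 1 + 2 * iO ∨ D = 1 - 2 * iO

theorem dk_eq_ph (k : ZMod 4) (j : Fin 2) (S : Finset Pg) : C.dk k j S = ph k j (DDq S) := rfl

theorem md_cases' (k : ZMod 4) : md k = 1 ∨ md k = 0 := by
  revert k
  decide

theorem f2_cases' (j : Fin 2) : j = 0 ∨ j = 1 := by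
  revert j
  decide

theorem mk_cases' {k : ZMod 4} (h : md k = 0) : k = 0 ∨ k = 2 := by
  revert k
  decide

theorem z2_cases' (x : ZMod 2) : x = 0 ∨ x = 1 := by
  revert x
  decide

/-- **The points of `y² = x³ - D x`** for the good sets of primes. -/
theorem Gd4.pts {k : ZMod 4} {j : Fin 2} {S : Finset Pg} (h : Gd4 k j S)
    (hE : ¬ Exc (ph k j (DDq S))) : PtQ (ph k j (DDq S)) := by
  obtain ⟨h1, h2, h3, h4, h5, h6⟩ := h
  have hE' := not_or.1 hE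
  intro W hW
  rcases f2_cases' j with rfl | rfl
  · rcases md_cases' k with hk | hk
    · refine C.pts4_I k S hk (κ := fun q => aa q.1) (fun _ _ => rfl) ?_ hW
      have h7 := h2 rfl hk
      rw [N4_eq] at h7
      exact h7
    · rcases z2_cases' (∑ q ∈ S, aa q.1) with hA | hA
      · rcases mk_cases' hk with rfl | rfl
        · rcases z2_cases' (hf4 (∑ q ∈ S, nn q.1) + ∑ q ∈ S, bb q.1) with hc | hc
          · exact C.pts4_X3 S hA hc (h6 rfl rfl hA hc).2 hW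
          · refine C.pts4_X2 S hA hc (κ := 0) (fun _ _ => rfl) ?_ hW
            have h7 := (h5 rfl rfl hA hc).2
            rw [N4_eq] at h7
            exact h7
        · exact C.pts4_X1 S hA (h4 rfl rfl hA).2 hW
      · refine C.pts4_II k S hk hA (κ := 0) (fun _ _ => rfl) ?_ hE'.1 hE'.2 hW
        have h7 := (h3 rfl hk hA).2
        rw [N4_eq] at h7
        exact h7
  · refine C.pts4_IV k S ?_ hW
    have h7 := h1 rfl
    have e : dlE (fun q : Pg => aa q.1) (fun q => c2 q lam) (md k) =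
        fun q => md k * aa q.1 + bb q.1 := by
      funext q
      show md k * aa q.1 + c2 q lam = md k * aa q.1 + bb q.1
      rw [c2_lam]
    rw [e]
    exact h7

/-! ### the L-values -/

theorem Dq_eq_ph (k : ZMod 4) (S : Finset Pg) : Dq k S = ph k 0 (DDq S) := by
  unfold Dq ph
  have e : ((0 : Fin 2)).val = 0 := rfl
  rw [e, pow_zero, mul_one]

/-- `lam ∣ D` -/
def LsE : Prop := ∀ (k : ZMod 4) (S : Finset Pg),
  (B4 s4 (fun q => md k * aa q.1 + bb q.1) (fun q => aa q.1) (xk4 k) S).det ≠ 0 →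
    LQ (ph k 1 (DDq S))

/-- `D = 1 + 2 i` modulo `4` -/
def Ls3 : Prop := ∀ S : Finset Pg, ∑ q ∈ S, aa q.1 = 1 → K2 S → LQ (ph 2 0 (DDq S))

/-- `D = - 1` modulo `4` -/
def LsX1 : Prop := ∀ S : Finset Pg, ∑ q ∈ S, aa q.1 = 0 → K3 (hf4 (∑ q ∈ S, nn q.1)) S →
  LQ (ph 2 0 (DDq S))

/-- `D = 1` modulo `4`, first order -/
def LsX2 : Prop := ∀ S : Finset Pg, ∑ q ∈ S, aa q.1 = 0 →
  hf4 (∑ q ∈ S, nn q.1) + ∑ q ∈ S, bb q.1 = 1 → K2 S → LQ (ph 0 0 (DDq S))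

/-- `D = 1` modulo `4`, second order -/
def LsX3 : Prop := ∀ S : Finset Pg, ∑ q ∈ S, aa q.1 = 0 →
  hf4 (∑ q ∈ S, nn q.1) + ∑ q ∈ S, bb q.1 = 0 → K3 (xl4 (∑ q ∈ S, c4 q lam)) S →
  LQ (ph 0 0 (DDq S))

theorem ls_I {k : ZMod 4} {S : Finset Pg} (hk : md k = 1)
    (h : (N4 s4 (fun q => aa q.1) S).det ≠ 0) : LQ (ph k 0 (DDq S)) := by
  rw [← Dq_eq_ph]
  exact top4_I hk h

theorem ls_II {S : Finset Pg} (hA : ∑ q ∈ S, aa q.1 = 1) (h : K2 S) : LQ (ph 0 0 (DDq S)) := by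
  rw [← Dq_eq_ph]
  exact top4_II hA h.2

theorem ls_III : Ls3 := by
  intro S hA h
  rw [← Dq_eq_ph]
  exact top4_III hA h.2

end

end Pool.Agent.Lib.MP_1a91b9_ntQ
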