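import Pool.Agent.Lib.MP_1a91b9_ntQ.Q.Form4

/-!
# MP_1a91b9_nt (quartic twists), part Q: the value of the L-series for `D = 1` and `D = -1`

`g(1) √|d| / Ω = ∏ c_v / 64` for `y² = x³ - x` and `∏ c_v / 16` for `y² = x³ + x` over `ℚ(i)`.
-/

set_option autoImplicit false

namespace Pool.Agent.Lib.MP_1a91b9_ntQ

open NumberField IsDedekindDomain Finset
open Pool.Agent.Lib.MP_1a91b9_ntT.S9 (tam period)
open Den4 (ph)

noncomputable section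

theorem one4L_zero : Dq 0 ∅ = 1 := by
  have h : (0 : ZMod 4).val = 0 := rfl
  rw [Dq, h, pow_zero, DDq_empty, one_mul]

theorem one4L_two : Dq 2 ∅ = -1 := by rw [Dq_two, DDq_empty]

theorem one4L_nu (k : ZMod 4) : ‖nu4 k ∅‖ ^ 2 * 2 ^ ek k = 1 := by
  have h : nu4 k ∅ * lm ^ ek k = 1 := by
    rw [nu4, Finset.card_empty, zero_add, div_mul_eq_mul_div,
      div_self (mul_ne_zero (La4_empty_ne k) (pow_ne_zero _ lm_ne))]
  have h1 := congrArg (fun z => ‖z‖ ^ 2) h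
  simp only [norm_mul, mul_pow, norm_one, one_pow] at h1
  rwa [norm_pow, ← pow_mul, mul_comm (ek k) 2, pow_mul, norm_lm_sq] at h1

theorem one4L_em : ‖em (DDq ∅)‖ ^ (((-3 : ℤ) : ℝ) / 2) = 1 := by
  rw [DDq_empty, em_one, norm_one, Real.one_rpow]

/-- **`y² = x³ - x`** over `ℚ(i)`. -/
theorem form4_one : ∃ g : ℂ → ℂ, Differentiable ℂ g ∧
    (∀ s : ℂ, 3 / 2 < s.re → g s = (WD4 1).LSeries s) ∧
    g 1 * (√|(discr K4 : ℝ)| : ℝ) / (period (WD4 1) : ℝ) =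
      (((1 : ℚ) : ℝ) *
        (((∏ᶠ v : HeightOneSpectrum (𝓞 K4), tam (WD4 1) v : ℕ) : ℝ) / 64) : ℝ) := by
  obtain ⟨w, hw⟩ := C.exists_w4
  have hD : cp (Dq 0 ∅) = (1, 0) := by rw [one4L_zero, cp_one]
  obtain ⟨hn1, hn2⟩ := C.q4x_ng hD (by norm_num)
  have hsq := C.q4_sq 0 ∅
  have h8 : 8 ∣ Dq 0 ∅ - 1 ∨ 8 ∣ Dq 0 ∅ - 5 := Or.inl (by
    rw [one4L_zero, sub_self]
    exact dvd_zero _)
  have hT : ∏ᶠ v : HeightOneSpectrum (𝓞 K4), tam (WD4 (Dq 0 ∅)) v = 4 := by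
    rw [C.finprod_tam4 (C.part4_PD 0 ∅) hw, C.tam4_lam_X3 h8 hw (C.per4_u hsq hn1 hn2 w),
      Finset.card_empty, pow_zero, one_mul]
  obtain ⟨g, hgd, hgs, hg⟩ := ser4_add (κ := 0) (by decide) ∅
  have hk : (0 : ZMod 4) + 2 * ∑ q ∈ (∅ : Finset Pg), nn q.1 = 0 := by
    rw [Finset.sum_empty, mul_zero, add_zero]
  rw [hk] at hg
  have h1 := C.val4 (C.part4_norm 0 ∅) one_ne_zero (C.q4_std (C.period4 hsq hn1 hn2))
    (C.part4_g hg)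
  have h2 := one4L_nu 0
  rw [props_ek0] at h2
  have h3 : ‖nu4 0 ∅‖ ^ 2 = 1 / 4 := by linarith
  rw [one4L_em, h3, Finset.card_empty] at h1
  rw [← one4L_zero, hT]
  refine ⟨g, hgd, hgs, h1.trans ?_⟩
  congr 1
  norm_num

/-- **`y² = x³ + x`** over `ℚ(i)`. -/
theorem form4_neg_one : ∃ g : ℂ → ℂ, Differentiable ℂ g ∧
    (∀ s : ℂ, 3 / 2 < s.re → g s = (WD4 (-1)).LSeries s) ∧
    g 1 * (√|(discr K4 : ℝ)| : ℝ) / (period (WD4 (-1)) : ℝ) =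
      (((1 : ℚ) : ℝ) *
        (((∏ᶠ v : HeightOneSpectrum (𝓞 K4), tam (WD4 (-1)) v : ℕ) : ℝ) / 16) : ℝ) := by
  obtain ⟨w, hw⟩ := C.exists_w4
  have hD : cp (Dq 2 ∅) = (-1, 0) := by
    rw [one4L_two, cp_neg, cp_one]
    rfl
  obtain ⟨hn1, hn2⟩ := C.q4x_ng hD (by norm_num)
  have hsq := C.q4_sq 2 ∅
  have h4 : 4 ∣ Dq 2 ∅ + 1 := by
    rw [one4L_two, neg_add_cancel]
    exact dvd_zero _
  have hT : ∏ᶠ v : HeightOneSpectrum (𝓞 K4), tam (WD4 (Dq 2 ∅)) v = 2 := by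
    rw [C.finprod_tam4 (C.part4_PD 2 ∅) hw, C.tam4_lam_X1 h4 hw (C.per4_u hsq hn1 hn2 w),
      Finset.card_empty, pow_zero, one_mul]
  obtain ⟨g, hgd, hgs, hg⟩ := ser4 2 ∅ fun v hv => by
    rw [eq_pv_lam hv, Dq_two]
    refine (locLG ∅ 0).2 ?_
    rw [DDq_empty, nn_one]
    decide
  have hk : (2 : ZMod 4) + 2 * ∑ q ∈ (∅ : Finset Pg), nn q.1 = 2 := by
    rw [Finset.sum_empty, mul_zero, add_zero]
  rw [hk] at hg
  have h1 := C.val4 (C.part4_norm 2 ∅) one_ne_zero (C.q4_std (C.period4 hsq hn1 hn2))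
    (C.part4_g hg)
  have h2 := one4L_nu 2
  have h5 : ek 2 = 1 := by decide
  rw [h5] at h2
  have h3 : ‖nu4 2 ∅‖ ^ 2 = 1 / 2 := by linarith
  rw [one4L_em, h3, Finset.card_empty] at h1
  rw [← one4L_two, hT]
  refine ⟨g, hgd, hgs, h1.trans ?_⟩
  congr 1
  norm_num

end

end Pool.Agent.Lib.MP_1a91b9_ntQ
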