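import Pool.Agent.Lib.MP_1a91b9_ntQ.Q.Bsd4
import Pool.Agent.Lib.MP_1a91b9_ntQ.Q.Dens4
import Pool.Agent.Lib.MP_1a91b9_ntQ.C.SelG
import Pool.Agent.Lib.MP_1a91b9_ntQ.C.Prim5
import Pool.Agent.Lib.MP_1a91b9_ntQ.D.Up4
import Pool.Agent.Lib.MP_1a91b9_ntQ.D.Up5

/-!
# MP_1a91b9_nt (quartic twists), part Q, file T4: the conjecture of Birch and Swinnerton-Dyer modulo
`2` for every squarefree `D`, with the distribution of the normalised value, from the converse of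
the descent
-/

set_option autoImplicit false

namespace Pool.Agent.Lib.MP_1a91b9_ntQ

open NumberField IsDedekindDomain Finset WeierstrassCurve Filter Topology
open Den4 (ph)
open Pool.Agent.Lib.MP_1a91b9_ntS (BSDMod)
open Pool.Agent.Lib.MP_1a91b9_ntH (Sx)
open Pool.Agent.Lib.MP_1a91b9_ntT.S9 (tam period)
open Pool.Agent.Lib.MP_1a91b9_ntT3.S9 (ShaP)

noncomputable section

theorem fwQ : FwQ := fun k j S hG => C.fin4_all k j S hG rfl rfl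

theorem onQ_one : OnQ 1 8 := by
  have h : WD4 1 = C.cq 1 := by
    have e : ((1 : 𝓞 K4) : K4) = 1 := rfl
    rw [WD4, C.cq, e]
  exact C.one5 h

theorem onQ_neg_one : OnQ (-1) 4 := by
  have h : WD4 (-1) = C.cq (-1) := by
    have e : ((-1 : 𝓞 K4) : K4) = -1 := rfl
    rw [WD4, C.cq, e]
  exact C.mone5 h

/-- The criterion, with `D = 1, -1`. -/
def Gdy (k : ZMod 4) (j : Fin 2) (S : Finset Pg) : Prop :=
  Gd4 k j S ∨ (md k = 0 ∧ j = 0 ∧ S = ∅)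

theorem gdy {m : ℕ} (hm : 2 ≤ m) (k : ZMod 4) (j : Fin 2) (g : G4n m) {κ₀ : ℝ}
    (hκ : κ₀ < Da.cinf2) : DS m g κ₀ (Gdy k j) :=
  (gd4 hm k j g hκ).mono fun _ _ h => Or.inl h

theorem gdy_not {m : ℕ} (hm : 2 ≤ m) (k : ZMod 4) (j : Fin 2) (g : G4n m) {κ₀ : ℝ}
    (hκ : κ₀ < 1 - Da.cinf2) : DS m g κ₀ fun S => ¬ Gdy k j S :=
  ((gd4_not hm k j g hκ).exc (Set.finite_singleton ∅)).mono fun _ _ h h1 =>
    h1.elim h.1 fun h2 => h.2 h2.2.2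

theorem two_pow_dvd4 (n : ℕ) : (2 : 𝓞 K4) ^ n ∣ lam ^ (2 * n + 5) := by
  have e : (2 : 𝓞 K4) ^ n * (iO ^ n * lam ^ 5) = lam ^ (2 * n + 5) := by
    have e1 : (2 : 𝓞 K4) * iO = lam ^ 2 := lam_sq.symm
    rw [← mul_assoc, ← mul_pow, e1, ← pow_mul, ← pow_add]
  exact Dvd.intro _ e

/-- **The limit in a residue class modulo a divisor of a power of `2`.** -/
theorem limit4 {n : ℕ} {M u : 𝓞 K4} (hM : M ∣ 2 ^ n)
    (hu : ¬ ((2 : 𝓞 K4) ∣ M ∧ (2 : 𝓞 K4) ∣ u)) (Pr : 𝓞 K4 → Prop)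
    (hPr : ∀ (k : ZMod 4) (j : Fin 2) (S : Finset Pg),
      (Pr (ph k j (DDq S)) ↔ Gdy k j S)) :
    Tendsto (fun X : ℝ =>
      (Nat.card {x : 𝓞 K4 // Squarefree x ∧ M ∣ x - u ∧ |Algebra.norm ℤ x| ≤ X ∧ Pr x} : ℝ) /
        (Nat.card {x : 𝓞 K4 // Squarefree x ∧ M ∣ x - u ∧ |Algebra.norm ℤ x| ≤ X} : ℝ))
      atTop (𝓝 (∏' i : ℕ, (1 + 1 / (2 : ℝ) ^ (i + 1))⁻¹)) := by
  obtain ⟨u', hu', hMu⟩ := exists_rep hu
  rw [cinf2_form]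
  have hM2 : M ∣ lam ^ (2 * (n + 1) + 5) :=
    (hM.trans (pow_dvd_pow 2 (Nat.le_succ n))).trans (two_pow_dvd4 (n + 1))
  have key := tendsto4_cls (2 * (n + 1)) hM2 hu' Gdy Da.cinf2 cinf2_pos5
    (fun k j g _ hκ => gdy (by omega) k j g hκ) (fun k j g _ hκ => gdy_not (by omega) k j g hκ) Pr
    (fun k j S _ => hPr k j S)
  simp only [dvd_sub_iff hMu] at key
  exact key

/-- **Form T of the quartic family, squarefree `D`**, from the converse of the descent. -/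
theorem main_q4T (hC : CvQ) : ∃ q : 𝓞 (CyclotomicField 4 ℚ) → ℚ,
    (∀ D : 𝓞 (CyclotomicField 4 ℚ), Squarefree D → ∀ W : WeierstrassCurve (CyclotomicField 4 ℚ),
      W = ⟨0, 0, 0, -(D : CyclotomicField 4 ℚ), 0⟩ → BSDMod 2 W (q D)) ∧
    ∀ (n : ℕ) (m u : 𝓞 (CyclotomicField 4 ℚ)), m ∣ 2 ^ n → ¬ (2 ∣ m ∧ 2 ∣ u) →
      Filter.Tendsto (fun X : ℝ =>
        (Nat.card {D : 𝓞 (CyclotomicField 4 ℚ) // Squarefree D ∧ m ∣ D - u ∧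
          |Algebra.norm ℤ D| ≤ X ∧ ¬ 2 ∣ (q D).num} : ℝ) /
        (Nat.card {D : 𝓞 (CyclotomicField 4 ℚ) // Squarefree D ∧ m ∣ D - u ∧
          |Algebra.norm ℤ D| ≤ X} : ℝ)) Filter.atTop
        (nhds (∏' i : ℕ, (1 + 1 / (2 : ℝ) ^ (i + 1))⁻¹)) := by
  obtain ⟨q, h1, h2⟩ := bsd4 fwQ hC onQ_one onQ_neg_one
  refine ⟨q, fun D hs W hW => ?_, fun n m u hm hu => ?_⟩
  · subst hW
    exact h1 D hs
  · exact limit4 hm hu (fun D => ¬ (2 : ℤ) ∣ (q D).num) h2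

end

end Pool.Agent.Lib.MP_1a91b9_ntQ
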