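import Pool.Agent.Lib.MP_1a91b9_ntQ.Q.T4
import Pool.Agent.Lib.MP_1a91b9_ntQ.C.ConvG

/-!
# MP_1a91b9_nt (quartic twists), part Q, file T4F: form T for every squarefree `D`
-/

set_option autoImplicit false

namespace Pool.Agent.Lib.MP_1a91b9_ntQ

open NumberField IsDedekindDomain Finset WeierstrassCurve
open Den4 (ph)
open Pool.Agent.Lib.MP_1a91b9_ntS (BSDMod)

noncomputable section

/-- **The converse of the descent** for every squarefree `D ≠ 1, -1`. -/
theorem cvQ : CvQ := by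
  intro k j S hne hfin hsha
  by_contra hG
  refine C.conv_gd4 (k := k) (j := j) (S := S) ?_ hG rfl hfin hsha
  by_contra hc
  have h1 : S = ∅ := Finset.not_nonempty_iff_eq_empty.1 fun h => hc (Or.inl h)
  have h2 : ¬ j = 1 := fun h => hc (Or.inr (Or.inl h))
  have h3 : ¬ md k = 1 := fun h => hc (Or.inr (Or.inr h))
  refine hne ⟨?_, ?_, h1⟩
  · rcases md_cases' k with h | h
    · exact absurd h h3
    · exact h
  · rcases f2_cases' j with h | h
    · exact h
    · exact absurd h h2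

/-- **The conjecture of Birch and Swinnerton-Dyer modulo `2`** for `y² = x³ - D x`, `D` squarefree
in `ℤ[i]`, with the distribution of the normalised value in every residue class modulo a divisor of
a power of `2`. -/
theorem main_q4s : ∃ q : 𝓞 (CyclotomicField 4 ℚ) → ℚ,
    (∀ D : 𝓞 (CyclotomicField 4 ℚ), Squarefree D → ∀ W : WeierstrassCurve (CyclotomicField 4 ℚ),
      W = ⟨0, 0, 0, -(D : CyclotomicField 4 ℚ), 0⟩ → BSDMod 2 W (q D)) ∧
    ∀ (n : ℕ) (m u : 𝓞 (CyclotomicField 4 ℚ)), m ∣ 2 ^ n → ¬ (2 ∣ m ∧ 2 ∣ u) →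
      Filter.Tendsto (fun X : ℝ =>
        (Nat.card {D : 𝓞 (CyclotomicField 4 ℚ) // Squarefree D ∧ m ∣ D - u ∧
          |Algebra.norm ℤ D| ≤ X ∧ ¬ 2 ∣ (q D).num} : ℝ) /
        (Nat.card {D : 𝓞 (CyclotomicField 4 ℚ) // Squarefree D ∧ m ∣ D - u ∧
          |Algebra.norm ℤ D| ≤ X} : ℝ)) Filter.atTop
        (nhds (∏' i : ℕ, (1 + 1 / (2 : ℝ) ^ (i + 1))⁻¹)) := main_q4T cvQ

end

end Pool.Agent.Lib.MP_1a91b9_ntQ
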