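import Pool.Agent.Lib.MP_1a91b9_ntQ.Q.Main5
import Pool.Agent.Lib.MP_1a91b9_ntQ.C.Part5
import Pool.Agent.Lib.MP_1a91b9_ntQ.A.AlgXc
import Pool.Agent.Lib.MP_1a91b9_ntQ.D.Up5
import Pool.Agent.Lib.MP_1a91b9_ntS.R.Defs

/-!
# MP_1a91b9_nt (the family `y² = x³ - δ² x` over `ℚ(i)`), part Q, file T5: the conjecture of Birch and
Swinnerton-Dyer modulo `2` for every squarefree `δ`, with the distribution of the normalised value
-/

set_option autoImplicit false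

namespace Pool.Agent.Lib.MP_1a91b9_ntQ

open NumberField IsDedekindDomain Finset WeierstrassCurve Filter Topology
open Den4 (ph)
open Pool.Agent.Lib.MP_1a91b9_ntS (BSDMod)
open Pool.Agent.Lib.MP_1a91b9_ntH (Sx)
open Pool.Agent.Lib.MP_1a91b9_ntT.S9 (tam period)
open Pool.Agent.Lib.MP_1a91b9_ntT3.S9 (ShaP)

noncomputable section

/-! ### The empty set of primes -/

/-- A property of positive density holds for nonempty sets. -/
theorem DS.ne_empty {m : ℕ} {g : G4n m} {κ₀ : ℝ} {Q : Finset Pg → Prop} (h : DS m g κ₀ Q) :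
    DS m g κ₀ fun S => Q S ∧ S ≠ ∅ := by
  classical
  intro ε hε
  obtain ⟨X0, h0⟩ := h (ε / 2) (by linarith)
  obtain ⟨N, hN⟩ := exists_nat_ge (2 / ε)
  refine ⟨max X0 N, fun X hX => ?_⟩
  have h1 := h0 X ((le_max_left _ _).trans hX)
  have h2 : ((Sx Pg X).filter fun S => ∑ q ∈ S, clq m q = g ∧ Q S).card ≤
      ((Sx Pg X).filter fun S => ∑ q ∈ S, clq m q = g ∧ Q S ∧ S ≠ ∅).card + 1 := by
    have e : ((Sx Pg X).filter fun S => ∑ q ∈ S, clq m q = g ∧ Q S) ⊆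
        ((Sx Pg X).filter fun S => ∑ q ∈ S, clq m q = g ∧ Q S ∧ S ≠ ∅) ∪ {∅} := by
      intro S hS
      rw [mem_filter] at hS
      rw [mem_union, mem_filter, mem_singleton]
      by_cases hS0 : S = ∅
      · exact Or.inr hS0
      · exact Or.inl ⟨hS.1, hS.2.1, hS.2.2, hS0⟩
    exact (card_le_card e).trans ((card_union_le _ _).trans (by rw [card_singleton]))
  have h3 : (((Sx Pg X).filter fun S => ∑ q ∈ S, clq m q = g ∧ Q S).card : ℝ) ≤
      (((Sx Pg X).filter fun S => ∑ q ∈ S, clq m q = g ∧ Q S ∧ S ≠ ∅).card : ℝ) + 1 := by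
    exact_mod_cast h2
  have h4 : (N : ℝ) ≤ X := by exact_mod_cast (le_max_right _ _).trans hX
  have h5 : 1 ≤ ε / 2 * X := by
    have h6 : ε / 2 * (2 / ε) ≤ ε / 2 * X :=
      mul_le_mul_of_nonneg_left (hN.trans h4) (by linarith)
    have h7 : ε / 2 * (2 / ε) = 1 := by field_simp
    linarith
  have h8 : κ₀ * (((Sx Pg X).filter fun S => ∑ q ∈ S, clq m q = g).card : ℝ) - ε * X ≤
      (((Sx Pg X).filter fun S => ∑ q ∈ S, clq m q = g ∧ Q S ∧ S ≠ ∅).card : ℝ) := by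
    linarith
  refine h8.trans (le_of_eq ?_)
  congr 2
  ext S
  simp only [mem_filter]

/-- The good sets of primes, with the empty set. -/
def Gdx (k : ZMod 4) (j : Fin 2) (S : Finset Pg) : Prop := Gd5 k j S ∨ S = ∅

theorem gdx {m : ℕ} (k : ZMod 4) (j : Fin 2) (g : G4n m) {κ₀ : ℝ}
    (hκ : κ₀ < Da.cinf2) : DS m g κ₀ (Gdx k j) :=
  (gd5 k j g hκ).mono fun _ _ h => Or.inl h

theorem gdx_not {m : ℕ} (k : ZMod 4) (j : Fin 2) (g : G4n m) {κ₀ : ℝ}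
    (hκ : κ₀ < 1 - Da.cinf2) : DS m g κ₀ fun S => ¬ Gdx k j S :=
  (gd5_not k j g hκ).ne_empty.mono fun _ _ h h1 => h1.elim h.1 h.2

/-- **The limit in a residue class modulo a divisor of a power of `2`.** -/
theorem Q5.limit {n : ℕ} {M u : 𝓞 K4} (hM : M ∣ 2 ^ n)
    (hu : ¬ ((2 : 𝓞 K4) ∣ M ∧ (2 : 𝓞 K4) ∣ u)) (Pr : 𝓞 K4 → Prop)
    (hPr : ∀ (k : ZMod 4) (j : Fin 2) (S : Finset Pg),
      (Pr (ph k j (DDq S)) ↔ Gdx k j S)) :
    Tendsto (fun X : ℝ =>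
      (Nat.card {x : 𝓞 K4 // Squarefree x ∧ M ∣ x - u ∧ |Algebra.norm ℤ x| ≤ X ∧ Pr x} : ℝ) /
        (Nat.card {x : 𝓞 K4 // Squarefree x ∧ M ∣ x - u ∧ |Algebra.norm ℤ x| ≤ X} : ℝ))
      atTop (𝓝 (∏' i : ℕ, (1 + 1 / (2 : ℝ) ^ (i + 1))⁻¹)) := by
  obtain ⟨u', hu', hMu⟩ := Q5.exists_rep hu
  rw [cinf2_form]
  have key := tendsto4_cls (2 * n) (hM.trans (Q5.two_pow_dvd n)) hu' Gdx Da.cinf2 cinf2_pos5
    (fun k j g _ hκ => gdx k j g hκ) (fun k j g _ hκ => gdx_not k j g hκ) Pr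
    (fun k j S _ => hPr k j S)
  simp only [Q5.dvd_sub_iff hMu] at key
  exact key

/-! ### The condition on the matrices -/

theorem md_01 (k : ZMod 4) : md k = 0 ∨ md k = 1 := by
  generalize md k = t
  revert t
  decide

theorem gd5_I {k : ZMod 4} {j : Fin 2} {S : Finset Pg} (h : md k = 1 ∨ j = 1) :
    Gd5 k j S ↔ (N4 s4 (fun q => md k * aa q.1 + jj j * bb q.1) S).det ≠ 0 := by
  refine ⟨fun h1 => h1.1 h, fun h1 => ⟨fun _ => h1, fun h2 h3 => ?_, fun h2 h3 => ?_⟩⟩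
  · rw [h2, h3] at h
    exact absurd h (by decide)
  · rw [h2, h3] at h
    exact absurd h (by decide)

theorem gd5_II {k : ZMod 4} {S : Finset Pg} (hk : md k = 0) (hA : ∑ q ∈ S, aa q.1 = 1) :
    Gd5 k 0 S ↔ kap0 s4 S ≠ 0 := by
  have hS : S.Nonempty := by
    rw [nonempty_iff_ne_empty]
    rintro rfl
    rw [sum_empty] at hA
    exact absurd hA (by decide)
  rw [kap0_iff s4 s4_sym hS]
  refine ⟨fun h => (h.2.1 hk rfl hA).2, fun h => ⟨fun h1 => ?_, fun _ _ _ => ⟨hS, h⟩,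
    fun _ _ h2 => ?_⟩⟩
  · rw [hk] at h1
    exact absurd h1 (by decide)
  · rw [hA] at h2
    exact absurd h2 (by decide)

theorem gd5_III {k : ZMod 4} {S : Finset Pg} (hk : md k = 0) (hS : S.Nonempty)
    (hA : ∑ q ∈ S, aa q.1 = 0) :
    Gd5 k 0 S ↔ kapX s4 (fun q => aa q.1) (∑ q ∈ S, bb q.1) S ≠ 0 := by
  rw [kapX_iff s4 s4_sym (fun q : Pg => aa q.1) _ hS hA]
  refine ⟨fun h => (h.2.2 hk rfl hA).2, fun h => ⟨fun h1 => ?_, fun _ _ h2 => ?_,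
    fun _ _ _ => ⟨hS, h⟩⟩⟩
  · rw [hk] at h1
    exact absurd h1 (by decide)
  · rw [hA] at h2
    exact absurd h2 (by decide)

theorem gd5_empty {k : ZMod 4} {j : Fin 2} (h : md k = 1 ∨ j = 1) : Gd5 k j ∅ := by
  rw [gd5_I h]
  have e : (N4 s4 (fun q => md k * aa q.1 + jj j * bb q.1) (∅ : Finset Pg)).det = 1 :=
    Matrix.det_isEmpty
  rw [e]
  exact one_ne_zero

/-! ### The formula -/

/-- **The formula modulo `2`**, all `δ` different from `1`, `-1`. -/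
theorem form5_all (k : ZMod 4) (j : Fin 2) (S : Finset Pg)
    (hne : ¬ (md k = 0 ∧ j = 0 ∧ S = ∅)) :
    ∃ (g : ℂ → ℂ) (q : ℚ), Differentiable ℂ g ∧
      (∀ s : ℂ, 3 / 2 < s.re → g s = (WD4 (ph k j (DDq S) ^ 2)).LSeries s) ∧
      g 1 * (√|(discr K4 : ℝ)| : ℝ) / (period (WD4 (ph k j (DDq S) ^ 2)) : ℝ) =
        (q * (((∏ᶠ v : HeightOneSpectrum (𝓞 K4), tam (WD4 (ph k j (DDq S) ^ 2)) v : ℕ) : ℝ) /
          16) : ℝ) ∧
      ¬ 2 ∣ q.den ∧ (¬ (2 : ℤ) ∣ q.num ↔ Gd5 k j S) := by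
  have h2 : ∀ x : ZMod 2, x = 0 ∨ x = 1 := by decide
  have hj : ∀ j : Fin 2, j = 0 ∨ j = 1 := by decide
  rcases hj j with rfl | rfl
  · rcases md_01 k with hk | hk
    · rcases h2 (∑ q ∈ S, aa q.1) with hA | hA
      · have hS : S.Nonempty := by
          rw [nonempty_iff_ne_empty]
          exact fun h => hne ⟨hk, rfl, h⟩
        rw [gd5_III hk hS hA]
        exact C.form5_III hk hS hA
      · rw [gd5_II hk hA]
        exact C.form5_II hk hA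
    · rw [gd5_I (Or.inl hk)]
      exact C.form5_I (j := 0) (Or.inl hk) S
  · rw [gd5_I (Or.inr rfl)]
    exact C.form5_I (j := 1) (Or.inr rfl) S

end

end Pool.Agent.Lib.MP_1a91b9_ntQ
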